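import Mathlib

set_option autoImplicit false
set_option linter.all false
set_option linter.unusedSectionVars false
set_option linter.style.haveILetI false

open Set Metric Topology Filter

namespace Pool.Agent.H130R9

/-- Points where the family of balls is not locally finite. -/
def NL {X : Type*} [NormedAddCommGroup X] {ι : Type*} (c : ι → X) (r : ι → ℝ) (x : X) : Prop :=
  ∀ U ∈ 𝓝 x, ¬ {i | (closedBall (c i) (r i) ∩ U).Nonempty}.Finite

structure Cov {X : Type*} [NormedAddCommGroup X] {ι : Type*} (c : ι → X) (r : ι → ℝ) : Prop where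
  pos : ∀ i, 0 < r i
  cov : ∀ x, ∃ i, x ∈ closedBall (c i) (r i)
  star : ∀ i, {j | (closedBall (c i) (r i) ∩ closedBall (c j) (r j)).Nonempty}.Finite
  priv : ∀ i, ∃ x, x ∈ closedBall (c i) (r i) ∧ ∀ j, j ≠ i → x ∉ closedBall (c j) (r j)

theorem exists_min {X : Type*} {ι : Type*} (C : ι → Set X) (hcov : ∀ x, ∃ i, x ∈ C i)
    (hpf : ∀ x, {i | x ∈ C i}.Finite) :
    ∃ S : Set ι, (∀ x, ∃ i ∈ S, x ∈ C i) ∧ ∀ i ∈ S, ∃ x ∈ C i, ∀ j ∈ S, j ≠ i → x ∉ C j := by
  obtain ⟨m, hm⟩ := zorn_superset {S : Set ι | ∀ x, ∃ i ∈ S, x ∈ C i} (by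
    intro ch hch hchain
    rcases ch.eq_empty_or_nonempty with rfl | hne
    · exact ⟨univ, fun x => by
        obtain ⟨i, hi⟩ := hcov x
        exact ⟨i, mem_univ _, hi⟩, fun s hs => by simp at hs⟩
    · refine ⟨⋂₀ ch, ?_, fun s hs => sInter_subset_of_mem hs⟩
      intro x
      obtain ⟨s₀, hs₀, he⟩ := Nat.sInf_mem (hne.image (fun s : Set ι => (s ∩ {i | x ∈ C i}).ncard))
      obtain ⟨i, hi, hix⟩ := hch hs₀ x
      refine ⟨i, ?_, hix⟩
      rw [mem_sInter]
      intro s hs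
      rcases hchain.total hs₀ hs with h | h
      · exact h hi
      · have hle : (s₀ ∩ {i | x ∈ C i}).ncard ≤ (s ∩ {i | x ∈ C i}).ncard := by
          have := Nat.sInf_le (mem_image_of_mem (fun s : Set ι => (s ∩ {i | x ∈ C i}).ncard) hs)
          rw [← he] at this
          exact this
        have heq : s ∩ {i | x ∈ C i} = s₀ ∩ {i | x ∈ C i} :=
          Set.eq_of_subset_of_ncard_le (inter_subset_inter_left _ h) hle
            ((hpf x).subset inter_subset_right)
        have : i ∈ s₀ ∩ {i | x ∈ C i} := ⟨hi, hix⟩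
        rw [← heq] at this
        exact this.1)
  refine ⟨m, hm.prop, ?_⟩
  intro i hi
  have hnot : ¬ (∀ x, ∃ j ∈ m \ {i}, x ∈ C j) := by
    intro hc
    have := hm.le_of_le (y := m \ {i}) hc sdiff_subset
    exact (this hi).2 rfl
  push Not at hnot
  obtain ⟨x, hx⟩ := hnot
  obtain ⟨j, hj, hjx⟩ := hm.prop x
  have hji : j = i := by
    by_contra hne
    exact hx j ⟨hj, hne⟩ hjx
  subst hji
  exact ⟨x, hjx, fun k hk hkj => hx k ⟨hk, hkj⟩⟩

section

variable {X : Type*} [NormedAddCommGroup X] [NormedSpace ℝ X] {ι : Type*} {c : ι → X} {r : ι → ℝ}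

theorem Cov.pf (h : Cov c r) (x : X) : {i | x ∈ closedBall (c i) (r i)}.Finite := by
  obtain ⟨i, hi⟩ := h.cov x
  exact (h.star i).subset fun j hj => ⟨x, hi, hj⟩

theorem mem_other (h : Cov c r) {y : X} (hy : ¬ NL c r y) (J : Set ι)
    (hcl : y ∈ closure (⋃ j ∈ J, closedBall (c j) (r j))ᶜ) :
    ∃ k, k ∉ J ∧ y ∈ closedBall (c k) (r k) := by
  unfold NL at hy
  push Not at hy
  obtain ⟨U, hU, hfin⟩ := hy
  by_contra hno
  push Not at hno
  have hV : (U ∩ ⋂ k ∈ ({i | (closedBall (c i) (r i) ∩ U).Nonempty} \ J),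
      (closedBall (c k) (r k))ᶜ) ∈ 𝓝 y := by
    refine inter_mem hU ?_
    rw [biInter_mem (hfin.subset sdiff_subset)]
    intro k hk
    exact isClosed_closedBall.isOpen_compl.mem_nhds (hno k hk.2)
  obtain ⟨z, hz1, hz2⟩ := mem_closure_iff_nhds.1 hcl _ hV
  obtain ⟨k, hk⟩ := h.cov z
  have hkJ : k ∉ J := fun hkJ => hz2 (mem_biUnion hkJ hk)
  have := mem_iInter₂.1 hz1.2 k ⟨⟨z, hk, hz1.1⟩, hkJ⟩
  exact this hk

theorem exists_common_ker (hX : ¬ FiniteDimensional ℝ X) {κ : Type*} {T : Set κ} (hT : T.Finite)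
    (f : κ → (X →L[ℝ] ℝ)) : ∃ h : X, ‖h‖ = 1 ∧ ∀ j ∈ T, f j h = 0 := by
  by_contra hno
  push Not at hno
  apply hX
  haveI : Finite T := hT
  haveI : Fintype T := Fintype.ofFinite T
  let Φ : X →ₗ[ℝ] (T → ℝ) := LinearMap.pi (fun j => (f j.1).toLinearMap)
  have hinj : Function.Injective Φ := by
    rw [← LinearMap.ker_eq_bot, LinearMap.ker_eq_bot']
    intro m hm
    by_contra hm0
    obtain ⟨j, hjT, hj⟩ := hno (‖m‖⁻¹ • m) (by
      rw [norm_smul, norm_inv, norm_norm, inv_mul_cancel₀ (norm_ne_zero_iff.2 hm0)])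
    apply hj
    have := congrFun hm ⟨j, hjT⟩
    simp only [Φ, LinearMap.pi_apply, Pi.zero_apply] at this
    rw [map_smul]
    have h2 : f j m = 0 := this
    rw [h2, smul_zero]
  exact FiniteDimensional.of_injective Φ hinj

theorem exists_sphere_avoid (hX : ¬ FiniteDimensional ℝ X) {c₀ : X} {r₀ : ℝ} (hr₀ : 0 < r₀)
    {p : X} (hp : p ∈ closedBall c₀ r₀) {T : Set ι} (hT : T.Finite)
    (hav : ∀ j ∈ T, p ∉ closedBall (c j) (r j)) :
    ∃ y, dist y c₀ = r₀ ∧ ∀ j ∈ T, y ∉ closedBall (c j) (r j) := by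
  classical
  have hsep : ∀ j : ι, ∃ f : X →L[ℝ] ℝ, j ∈ T → ∃ u : ℝ,
      (∀ a ∈ closedBall (c j) (r j), f a < u) ∧ u < f p := by
    intro j
    by_cases hj : j ∈ T
    · obtain ⟨f, u, h1, h2⟩ := geometric_hahn_banach_closed_point
        (convex_closedBall (c j) (r j)) isClosed_closedBall (hav j hj)
      exact ⟨f, fun _ => ⟨u, h1, h2⟩⟩
    · exact ⟨0, fun h => absurd h hj⟩
  choose f hf using hsep
  obtain ⟨h, hh, hk⟩ := exists_common_ker hX hT f
  have hcont : ContinuousOn (fun t : ℝ => dist (p + t • h) c₀) (Icc 0 (2 * r₀)) := by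
    fun_prop
  have hivt := intermediate_value_Icc (by positivity : (0:ℝ) ≤ 2 * r₀) hcont
  have hmem : r₀ ∈ Icc (dist (p + (0:ℝ) • h) c₀) (dist (p + (2 * r₀) • h) c₀) := by
    constructor
    · simpa using hp
    · have h1 : ‖(2 * r₀) • h‖ = 2 * r₀ := by
        rw [norm_smul, hh, mul_one, Real.norm_of_nonneg (by positivity)]
      have h2 : ‖(2 * r₀) • h‖ ≤ dist (p + (2 * r₀) • h) c₀ + dist p c₀ := by
        rw [dist_eq_norm, dist_eq_norm]
        calc ‖(2 * r₀) • h‖ = ‖(p + (2 * r₀) • h - c₀) - (p - c₀)‖ := by congr 1; abel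
          _ ≤ _ := norm_sub_le _ _
      have h3 : dist p c₀ ≤ r₀ := hp
      linarith
  obtain ⟨t, _, ht⟩ := hivt hmem
  refine ⟨p + t • h, ht, ?_⟩
  intro j hj hmem'
  obtain ⟨u, hu1, hu2⟩ := hf j hj
  have := hu1 _ hmem'
  rw [map_add, map_smul, hk j hj, smul_zero, add_zero] at this
  linarith

theorem mem_closure_compl_closedBall {b y : X} {R : ℝ} (hR : 0 < R) (hy : dist y b = R) :
    y ∈ closure (closedBall b R)ᶜ := by
  rw [closure_compl, interior_closedBall _ hR.ne']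
  intro h
  rw [mem_ball] at h
  linarith

theorem exists_NL_mem (hX : ¬ FiniteDimensional ℝ X) (h : Cov c r) (i : ι) :
    ∃ y ∈ closedBall (c i) (r i), NL c r y := by
  obtain ⟨p, hp, hpriv⟩ := h.priv i
  obtain ⟨y, hy, hav⟩ := exists_sphere_avoid (c := c) (r := r) hX (h.pos i) hp
    (T := {j | (closedBall (c i) (r i) ∩ closedBall (c j) (r j)).Nonempty} \ {i})
    ((h.star i).subset sdiff_subset) (fun j hj => hpriv j hj.2)
  have hyi : y ∈ closedBall (c i) (r i) := by rw [mem_closedBall, hy]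
  refine ⟨y, hyi, ?_⟩
  by_contra hnl
  obtain ⟨k, hk1, hk2⟩ := mem_other h hnl {i} (by
    simp only [mem_singleton_iff, iUnion_iUnion_eq_left]
    exact mem_closure_compl_closedBall (h.pos i) hy)
  exact hav k ⟨⟨y, hyi, hk2⟩, hk1⟩ hk2

theorem NL_closed : IsClosed {x : X | NL c r x} := by
  rw [← isOpen_compl_iff, isOpen_iff_mem_nhds]
  intro x hx
  have hx' : ¬ NL c r x := hx
  unfold NL at hx'
  push Not at hx'
  obtain ⟨U, hU, hfin⟩ := hx'
  obtain ⟨V, hVU, hVo, hxV⟩ := _root_.mem_nhds_iff.1 hU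
  filter_upwards [hVo.mem_nhds hxV] with y hy
  intro hNL
  exact hNL V (hVo.mem_nhds hy) (hfin.subset fun i hi => hi.mono (inter_subset_inter_right _ hVU))

theorem countable_index [TopologicalSpace.SeparableSpace X] (h : Cov c r) : Countable ι := by
  obtain ⟨D, hD, hDd⟩ := TopologicalSpace.exists_countable_dense X
  rw [← Set.countable_univ_iff]
  refine (Set.Countable.biUnion hD (fun d _ => (h.pf d).countable)).mono ?_
  intro i _
  obtain ⟨d, hd1, hd2⟩ := hDd.exists_mem_open isOpen_ball ⟨c i, mem_ball_self (h.pos i)⟩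
  exact mem_biUnion hd1 (ball_subset_closedBall hd2)

theorem exists_baire [CompleteSpace X] [TopologicalSpace.SeparableSpace X]
    (hX : ¬ FiniteDimensional ℝ X) (h : Cov c r) :
    ∃ (i₀ : ι) (x₀ : X) (ε : ℝ), 0 < ε ∧ NL c r x₀ ∧
      ∀ y ∈ ball x₀ ε, NL c r y → y ∈ closedBall (c i₀) (r i₀) := by
  haveI : Countable ι := countable_index h
  obtain ⟨i, _⟩ := h.cov 0
  obtain ⟨y, _, hy⟩ := exists_NL_mem hX h i
  haveI : CompleteSpace {x : X | NL c r x} := (NL_closed (c := c) (r := r)).completeSpace_coe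
  haveI : Nonempty {x : X | NL c r x} := ⟨⟨y, hy⟩⟩
  obtain ⟨i₀, x₀, hx₀⟩ := nonempty_interior_of_iUnion_of_closed
    (f := fun i : ι => ((↑) : {x : X | NL c r x} → X) ⁻¹' closedBall (c i) (r i))
    (fun i => isClosed_closedBall.preimage continuous_subtype_val) (by
      ext x
      simp only [mem_iUnion, mem_preimage, mem_univ, iff_true]
      exact h.cov x)
  obtain ⟨ε, hε, hsub⟩ := Metric.isOpen_iff.1 isOpen_interior x₀ hx₀
  refine ⟨i₀, x₀, ε, hε, x₀.2, ?_⟩
  intro z hz hzN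
  have : (⟨z, hzN⟩ : {x : X | NL c r x}) ∈ ball x₀ ε := hz
  have h3 : (⟨z, hzN⟩ : {x : X | NL c r x}) ∈ ((↑) : {x : X | NL c r x} → X) ⁻¹' closedBall (c i₀) (r i₀) :=
    interior_subset (hsub this)
  exact h3

theorem nl_sphere (h : Cov c r) {y : X} (hy : NL c r y) {i : ι} (hyi : y ∈ closedBall (c i) (r i)) :
    dist y (c i) = r i := by
  by_contra hne
  have hlt : dist y (c i) < r i := lt_of_le_of_ne hyi hne
  apply hy (ball (c i) (r i)) (isOpen_ball.mem_nhds hlt)
  refine (h.star i).subset ?_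
  rintro j ⟨z, hz1, hz2⟩
  exact ⟨z, ball_subset_closedBall hz2, hz1⟩

theorem seg_stay {G : Set X} (hG : IsClosed G) {a b : X} (ha : a ∈ G)
    (hseg : ∀ y ∈ segment ℝ a b, y ∈ G → y ∉ closure Gᶜ) : b ∈ G := by
  have hpre : IsPreconnected (segment ℝ a b) := (convex_segment a b).isPreconnected
  have hsub : segment ℝ a b ⊆ interior G ∪ Gᶜ := by
    intro y hy
    by_cases hyG : y ∈ G
    · left
      have := hseg y hy hyG
      rw [closure_compl] at this
      exact not_not.1 this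
    · right; exact hyG
  have hint : a ∈ interior G := by
    rcases hsub (left_mem_segment ℝ a b) with h | h
    · exact h
    · exact absurd ha h
  have := IsPreconnected.subset_left_of_subset_union isOpen_interior hG.isOpen_compl
    (Set.disjoint_left.2 fun x hx hx' => hx' (interior_subset hx)) hsub
    ⟨a, left_mem_segment ℝ a b, hint⟩ hpre
  exact interior_subset (this (right_mem_segment ℝ a b))

end

end Pool.Agent.H130R9
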