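import Pool.Agent.H130R9.SF

set_option autoImplicit false
set_option linter.all false

open Set Metric Topology Filter

namespace Pool.Agent.H130R9

variable {X : Type*} [NormedAddCommGroup X] [NormedSpace ℝ X] {ι : Type*} {c : ι → X} {r : ι → ℝ}

theorem exists_radius_avoid {x₀ : X} {T : Set ι} (hT : T.Finite)
    (hav : ∀ k ∈ T, x₀ ∉ closedBall (c k) (r k)) :
    ∃ δ > 0, ∀ k ∈ T, ∀ y ∈ ball x₀ δ, y ∉ closedBall (c k) (r k) := by
  have hV : (⋂ k ∈ T, (closedBall (c k) (r k))ᶜ) ∈ 𝓝 x₀ := by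
    rw [biInter_mem hT]
    intro k hk
    exact isClosed_closedBall.isOpen_compl.mem_nhds (hav k hk)
  obtain ⟨δ, hδ, hsub⟩ := Metric.mem_nhds_iff.1 hV
  exact ⟨δ, hδ, fun k hk y hy => mem_iInter₂.1 (hsub hy) k hk⟩

theorem push_out {x₀ b p : X} {R s : ℝ} (hR : 0 < R) (hs : 0 ≤ s)
    (hp : R < dist p b) (hp2 : dist p x₀ ≤ R) : R < dist (p + s • (x₀ - b)) b := by
  rw [dist_eq_norm] at *
  have h1 : (1 + s) • (p - b) = (p + s • (x₀ - b) - b) + s • (p - x₀) := by module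
  have h2 : ‖(1 + s) • (p - b)‖ = (1 + s) * ‖p - b‖ := by
    rw [norm_smul, Real.norm_of_nonneg (by linarith)]
  have h3 : ‖s • (p - x₀)‖ = s * ‖p - x₀‖ := by rw [norm_smul, Real.norm_of_nonneg hs]
  have h4 := norm_add_le (p + s • (x₀ - b) - b) (s • (p - x₀))
  rw [← h1, h2, h3] at h4
  nlinarith

theorem far_out {x₀ b v : X} {R τ : ℝ} (hτ : 0 ≤ τ) (h0 : dist x₀ b = R)
    (hv : ‖v‖ < τ * R) : R < dist (x₀ + τ • (x₀ - b) + v) b := by
  rw [dist_eq_norm] at *
  have h1 : (1 + τ) • (x₀ - b) = (x₀ + τ • (x₀ - b) + v - b) - v := by module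
  have h2 : ‖(1 + τ) • (x₀ - b)‖ = (1 + τ) * ‖x₀ - b‖ := by
    rw [norm_smul, Real.norm_of_nonneg (by linarith)]
  have h4 := norm_sub_le (x₀ + τ • (x₀ - b) + v - b) v
  rw [← h1, h2, h0] at h4
  nlinarith

/-- local structure around a point -/
theorem local_structure (h : Cov c r) {i₀ : ι} {x₀ : X} {ε : ℝ} (hε : 0 < ε) (hx₀ : NL c r x₀)
    (hloc : ∀ y ∈ ball x₀ ε, NL c r y → y ∈ closedBall (c i₀) (r i₀)) :
    ∃ δ > 0, dist x₀ (c i₀) = r i₀ ∧
      (∀ y ∈ ball x₀ δ, NL c r y → y ∈ closedBall (c i₀) (r i₀)) ∧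
      (∀ y ∈ ball x₀ δ, dist y (c i₀) = r i₀ → NL c r y) ∧
      (∀ k, ∀ y ∈ ball x₀ δ, y ∉ closedBall (c i₀) (r i₀) → y ∈ closedBall (c k) (r k) →
        x₀ ∉ closedBall (c k) (r k) ∧
        Disjoint (closedBall (c i₀) (r i₀)) (closedBall (c k) (r k))) := by
  set b := c i₀ with hb
  set R := r i₀ with hRdef
  have hR : 0 < R := h.pos i₀
  have hx₀B : x₀ ∈ closedBall b R := hloc x₀ (mem_ball_self hε) hx₀
  have hdist : dist x₀ b = R := nl_sphere h hx₀ hx₀B
  set J : Set ι := {j | x₀ ∈ closedBall (c j) (r j)} with hJ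
  have hJfin : J.Finite := h.pf x₀
  have hi₀J : i₀ ∈ J := hx₀B
  set G : Set X := ⋃ j ∈ J, closedBall (c j) (r j) with hG
  have hGcl : IsClosed G := hJfin.isClosed_biUnion fun j _ => isClosed_closedBall
  set K : Set ι := ⋃ j ∈ J, {k | (closedBall (c j) (r j) ∩ closedBall (c k) (r k)).Nonempty} with hK
  have hKfin : K.Finite := hJfin.biUnion fun j _ => h.star j
  obtain ⟨δ₁, hδ₁, hav⟩ := exists_radius_avoid (c := c) (r := r) (x₀ := x₀) (T := K \ J)
    (hKfin.subset sdiff_subset) (fun k hk => hk.2)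
  set δ₀ := min (min δ₁ ε) R with hδ₀def
  have hδ₀ : 0 < δ₀ := lt_min (lt_min hδ₁ hε) hR
  have hδ₀1 : δ₀ ≤ δ₁ := (min_le_left _ _).trans (min_le_left _ _)
  have hδ₀ε : δ₀ ≤ ε := (min_le_left _ _).trans (min_le_right _ _)
  have hδ₀R : δ₀ ≤ R := min_le_right _ _
  -- membership in K
  have hKmem : ∀ {k : ι} {j : ι} {y : X}, j ∈ J → y ∈ closedBall (c j) (r j) →
      y ∈ closedBall (c k) (r k) → k ∈ K := by
    intro k j y hj hy1 hy2
    exact mem_biUnion hj ⟨y, hy1, hy2⟩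
  -- Claim A
  have claimA : ∀ y ∈ ball x₀ δ₀, y ∈ G → y ∈ closure Gᶜ → y ∈ closedBall b R := by
    intro y hy hyG hycl
    by_cases hNL : NL c r y
    · exact hloc y (ball_subset_ball hδ₀ε hy) hNL
    · obtain ⟨k, hkJ, hky⟩ := mem_other h hNL J hycl
      obtain ⟨j, hj, hyj⟩ := mem_iUnion₂.1 hyG
      exact absurd hky (hav k ⟨hKmem hj hyj hky, hkJ⟩ y (ball_subset_ball hδ₀1 hy))
  -- Claim B
  have claimB : x₀ ∈ closure Gᶜ := by
    rw [closure_compl]
    intro hint
    apply hx₀ (interior G) (isOpen_interior.mem_nhds hint)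
    refine hKfin.subset ?_
    rintro k ⟨z, hz1, hz2⟩
    obtain ⟨j, hj, hzj⟩ := mem_iUnion₂.1 (interior_subset hz2)
    exact hKmem hj hzj hz1
  set δ := δ₀ / 4 with hδdef
  have hδ : 0 < δ := by positivity
  have hδδ₀ : ball x₀ δ ⊆ ball x₀ δ₀ := ball_subset_ball (by rw [hδdef]; linarith)
  -- Claim C
  have claimC : ∀ y ∈ ball x₀ δ, y ∈ G → y ∈ closedBall b R := by
    intro y hy hyG
    by_contra hyB
    obtain ⟨q, hq1, hq2⟩ := mem_closure_iff_nhds.1 claimB (ball x₀ δ) (ball_mem_nhds x₀ hδ)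
    have hqB : q ∉ closedBall b R := fun hqB => hq2 (mem_biUnion hi₀J hqB)
    set τ := δ / R with hτdef
    have hτ : 0 < τ := by positivity
    have hτR : τ * R = δ := by rw [hτdef]; field_simp
    have hw : ‖x₀ - b‖ = R := by rw [← dist_eq_norm]; exact hdist
    have hyR : dist y x₀ ≤ R := by
      have : dist y x₀ < δ := hy
      have : δ ≤ R := by rw [hδdef]; linarith
      linarith
    have hqR : dist q x₀ ≤ R := by
      have : dist q x₀ < δ := hq1
      have : δ ≤ R := by rw [hδdef]; linarith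
      linarith
    -- vertical segments
    have hvert : ∀ p : X, p ∈ ball x₀ δ → p ∉ closedBall b R → ∀ s : ℝ, 0 ≤ s → s ≤ τ →
        p + s • (x₀ - b) ∈ ball x₀ δ₀ ∧ p + s • (x₀ - b) ∉ closedBall b R := by
      intro p hp hpB s hs hsτ
      constructor
      · rw [mem_ball, dist_eq_norm]
        have h1 : ‖s • (x₀ - b)‖ ≤ δ := by
          rw [norm_smul, Real.norm_of_nonneg hs, hw]
          calc s * R ≤ τ * R := by gcongr
            _ = δ := hτR
        have h2 : ‖p - x₀‖ < δ := by rw [← dist_eq_norm]; exact hp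
        have h3 := norm_add_le (p - x₀) (s • (x₀ - b))
        have h4 : p + s • (x₀ - b) - x₀ = (p - x₀) + s • (x₀ - b) := by abel
        rw [h4]
        have : δ₀ = 4 * δ := by rw [hδdef]; ring
        linarith
      · rw [mem_closedBall, not_le] at hpB ⊢
        apply push_out hR hs hpB
        have h2 : dist p x₀ < δ := hp
        have : δ ≤ R := by rw [hδdef]; linarith
        linarith
    have hup : y + τ • (x₀ - b) ∈ G := by
      apply seg_stay hGcl hyG
      intro z hz hzG hzcl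
      obtain ⟨s, hs, rfl⟩ := (segment_eq_image' ℝ y (y + τ • (x₀ - b))) ▸ hz
      have hz' : y + s • (y + τ • (x₀ - b) - y) = y + (s * τ) • (x₀ - b) := by module
      simp only [hz'] at hzG hzcl
      obtain ⟨g1, g2⟩ := hvert y hy hyB (s * τ) (by have := hs.1; positivity)
        (by have := hs.2; nlinarith)
      exact g2 (claimA _ g1 hzG hzcl)
    have hacross : q + τ • (x₀ - b) ∈ G := by
      apply seg_stay hGcl hup
      intro z hz hzG hzcl
      obtain ⟨s, hs, rfl⟩ := (segment_eq_image' ℝ (y + τ • (x₀ - b)) (q + τ • (x₀ - b))) ▸ hz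
      have hz' : y + τ • (x₀ - b) + s • (q + τ • (x₀ - b) - (y + τ • (x₀ - b)))
          = x₀ + τ • (x₀ - b) + ((1 - s) • (y - x₀) + s • (q - x₀)) := by module
      simp only [hz'] at hzG hzcl
      have hv : ‖(1 - s) • (y - x₀) + s • (q - x₀)‖ < δ := by
        have h1 : ‖y - x₀‖ < δ := by rw [← dist_eq_norm]; exact hy
        have h2 : ‖q - x₀‖ < δ := by rw [← dist_eq_norm]; exact hq1
        have h3 := norm_add_le ((1 - s) • (y - x₀)) (s • (q - x₀))
        rw [norm_smul, norm_smul, Real.norm_of_nonneg (by linarith [hs.2] : (0:ℝ) ≤ 1 - s),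
          Real.norm_of_nonneg hs.1] at h3
        rcases eq_or_lt_of_le hs.1 with h0 | h0
        · rw [← h0] at h3 ⊢
          simp at h3 ⊢
          exact h1
        · have e1 : (1 - s) * ‖y - x₀‖ ≤ (1 - s) * δ :=
            mul_le_mul_of_nonneg_left h1.le (by linarith [hs.2])
          have e2 : s * ‖q - x₀‖ < s * δ := mul_lt_mul_of_pos_left h2 h0
          nlinarith
      have g2 : x₀ + τ • (x₀ - b) + ((1 - s) • (y - x₀) + s • (q - x₀)) ∉ closedBall b R := by
        rw [mem_closedBall, not_le]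
        exact far_out hτ.le hdist (by rw [hτR]; exact hv)
      have g1 : x₀ + τ • (x₀ - b) + ((1 - s) • (y - x₀) + s • (q - x₀)) ∈ ball x₀ δ₀ := by
        rw [mem_ball, dist_eq_norm]
        have h4 : x₀ + τ • (x₀ - b) + ((1 - s) • (y - x₀) + s • (q - x₀)) - x₀
          = τ • (x₀ - b) + ((1 - s) • (y - x₀) + s • (q - x₀)) := by abel
        rw [h4]
        have h5 := norm_add_le (τ • (x₀ - b)) ((1 - s) • (y - x₀) + s • (q - x₀))
        have h6 : ‖τ • (x₀ - b)‖ = δ := by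
          rw [norm_smul, Real.norm_of_nonneg hτ.le, hw, hτR]
        have : δ₀ = 4 * δ := by rw [hδdef]; ring
        linarith
      exact g2 (claimA _ g1 hzG hzcl)
    have hdown : q ∈ G := by
      apply seg_stay hGcl hacross
      intro z hz hzG hzcl
      obtain ⟨s, hs, rfl⟩ := (segment_eq_image' ℝ (q + τ • (x₀ - b)) q) ▸ hz
      have hz' : q + τ • (x₀ - b) + s • (q - (q + τ • (x₀ - b))) = q + ((1 - s) * τ) • (x₀ - b) := by
        module
      simp only [hz'] at hzG hzcl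
      obtain ⟨g1, g2⟩ := hvert q hq1 hqB ((1 - s) * τ)
        (by have := hs.2; exact mul_nonneg (by linarith) hτ.le)
        (by have := hs.1; nlinarith)
      exact g2 (claimA _ g1 hzG hzcl)
    exact hq2 hdown
  refine ⟨δ, hδ, hdist, ?_, ?_, ?_⟩
  · intro y hy hyNL
    exact hloc y (ball_subset_ball (by rw [hδdef]; linarith) hy) hyNL
  · intro y hy hyd
    by_contra hNL
    have hcl : y ∈ closure Gᶜ := by
      rw [mem_closure_iff_nhds]
      intro U hU
      obtain ⟨z, hz1, hz2⟩ := mem_closure_iff_nhds.1 (mem_closure_compl_closedBall hR hyd)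
        (U ∩ ball x₀ δ) (inter_mem hU (isOpen_ball.mem_nhds hy))
      exact ⟨z, hz1.1, fun hzG => hz2 (claimC z hz1.2 hzG)⟩
    obtain ⟨k, hkJ, hky⟩ := mem_other h hNL J hcl
    have hyB : y ∈ closedBall b R := by rw [mem_closedBall, hyd]
    exact hav k ⟨hKmem hi₀J hyB hky, hkJ⟩ y (ball_subset_ball hδ₀1 (hδδ₀ hy)) hky
  · intro k y hy hyB hyk
    have hkJ : k ∉ J := fun hkJ => hyB (claimC y hy (mem_biUnion hkJ hyk))
    refine ⟨hkJ, ?_⟩
    rw [Set.disjoint_left]
    intro z hz1 hz2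
    exact hav k ⟨hKmem hi₀J hz1 hz2, hkJ⟩ y (ball_subset_ball hδ₀1 (hδδ₀ hy)) hyk

end Pool.Agent.H130R9
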