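import Pool.Agent.H130R9.SF2

set_option autoImplicit false
set_option linter.all false

open Set Metric Topology Filter

namespace Pool.Agent.H130R9

variable {X : Type*} [NormedAddCommGroup X] [NormedSpace ℝ X] {ι : Type*} {c : ι → X} {r : ι → ℝ}

theorem sub_ball {p c₀ : X} {r₀ σ : ℝ} (hp : p ∈ closedBall c₀ r₀) (hσ : 0 < σ) (hσr : σ ≤ r₀) :
    ∃ q, dist q p ≤ σ ∧ closedBall q σ ⊆ closedBall c₀ r₀ := by
  have hr₀ : 0 < r₀ := by linarith
  refine ⟨p + (σ / r₀) • (c₀ - p), ?_, ?_⟩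
  · rw [dist_eq_norm, add_sub_cancel_left, norm_smul, Real.norm_of_nonneg (by positivity)]
    have : ‖c₀ - p‖ ≤ r₀ := by rw [← dist_eq_norm, dist_comm]; exact hp
    calc σ / r₀ * ‖c₀ - p‖ ≤ σ / r₀ * r₀ := by gcongr
      _ = σ := by field_simp
  · apply closedBall_subset_closedBall'
    rw [dist_eq_norm]
    have h1 : p + (σ / r₀) • (c₀ - p) - c₀ = (1 - σ / r₀) • (p - c₀) := by module
    have h2 : σ / r₀ ≤ 1 := by rw [div_le_one hr₀]; exact hσr
    rw [h1, norm_smul, Real.norm_of_nonneg (by linarith)]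
    have : ‖p - c₀‖ ≤ r₀ := by rw [← dist_eq_norm]; exact hp
    have h3 : (1 - σ / r₀) * ‖p - c₀‖ ≤ (1 - σ / r₀) * r₀ :=
      mul_le_mul_of_nonneg_left this (by linarith)
    have h4 : (1 - σ / r₀) * r₀ = r₀ - σ := by field_simp
    linarith

structure Loc (c : ι → X) (r : ι → ℝ) (i₀ : ι) (x₀ : X) (δ : ℝ) : Prop where
  dpos : 0 < δ
  dist_eq : dist x₀ (c i₀) = r i₀
  P3 : ∀ y ∈ ball x₀ δ, NL c r y → y ∈ closedBall (c i₀) (r i₀)
  P1 : ∀ y ∈ ball x₀ δ, dist y (c i₀) = r i₀ → NL c r y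
  P2 : ∀ k, ∀ y ∈ ball x₀ δ, y ∉ closedBall (c i₀) (r i₀) → y ∈ closedBall (c k) (r k) →
        x₀ ∉ closedBall (c k) (r k) ∧
        Disjoint (closedBall (c i₀) (r i₀)) (closedBall (c k) (r k))

theorem exists_loc [CompleteSpace X] [TopologicalSpace.SeparableSpace X]
    (hX : ¬ FiniteDimensional ℝ X) (h : Cov c r) : ∃ i₀ x₀ δ, Loc c r i₀ x₀ δ := by
  obtain ⟨i₀, x₀, ε, hε, hx₀, hloc⟩ := exists_baire hX h
  obtain ⟨δ, hδ, h1, h2, h3, h4⟩ := local_structure h hε hx₀ hloc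
  exact ⟨i₀, x₀, δ, hδ, h1, h2, h3, h4⟩

theorem Loc.radius (hX : ¬ FiniteDimensional ℝ X) (h : Cov c r) {i₀ : ι} {x₀ : X} {δ : ℝ}
    (L : Loc c r i₀ x₀ δ) {k : ι} {p : X}
    (hdisj : Disjoint (closedBall (c i₀) (r i₀)) (closedBall (c k) (r k)))
    (hp : p ∈ closedBall (c k) (r k)) (hpx : dist p x₀ < δ / 2) : δ / 4 ≤ r k := by
  obtain ⟨y, hy, hNL⟩ := exists_NL_mem hX h k
  have hyδ : δ ≤ dist y x₀ := by
    by_contra hlt
    push Not at hlt
    exact (Set.disjoint_left.1 hdisj (L.P3 y hlt hNL)) hy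
  have h1 := dist_triangle y p x₀
  have h2 : dist y p ≤ r k + r k := (dist_triangle_right y p (c k)).trans (add_le_add hy hp)
  linarith

theorem Loc.approach (hX : ¬ FiniteDimensional ℝ X) (h : Cov c r) {i₀ : ι} {x₀ : X} {δ : ℝ}
    (L : Loc c r i₀ x₀ δ) {y : X} (hy : dist y x₀ < δ / 2)
    (hyd : dist y (c i₀) = r i₀) {A : Set ι} (hA : A.Finite) {ε σ : ℝ} (hε : 0 < ε) (hσ : 0 < σ)
    (hσδ : σ ≤ δ / 4) :
    ∃ k, k ∉ A ∧ Disjoint (closedBall (c i₀) (r i₀)) (closedBall (c k) (r k)) ∧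
      ∃ q, dist q y ≤ σ + ε ∧ closedBall q σ ⊆ closedBall (c k) (r k) := by
  have hNL := L.P1 y (by rw [mem_ball]; linarith [L.dpos]) hyd
  have hU : ball y ε ∩ ball x₀ (δ / 2) ∈ 𝓝 y :=
    inter_mem (ball_mem_nhds y hε) (isOpen_ball.mem_nhds hy)
  have hinf := hNL _ hU
  have hex : ∃ k ∈ {i | (closedBall (c i) (r i) ∩ (ball y ε ∩ ball x₀ (δ / 2))).Nonempty},
      k ∉ A ∪ {j | (closedBall (c i₀) (r i₀) ∩ closedBall (c j) (r j)).Nonempty} := by
    by_contra hno
    push Not at hno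
    exact hinf ((hA.union (h.star i₀)).subset hno)
  obtain ⟨k, ⟨p, hp1, hp2, hp3⟩, hk⟩ := hex
  rw [mem_union, not_or] at hk
  have hdisj : Disjoint (closedBall (c i₀) (r i₀)) (closedBall (c k) (r k)) := by
    rw [Set.disjoint_iff_inter_eq_empty]
    exact not_nonempty_iff_eq_empty.1 hk.2
  have hr := L.radius hX h hdisj hp1 hp3
  obtain ⟨q, hq1, hq2⟩ := sub_ball hp1 hσ (by linarith)
  refine ⟨k, hk.1, hdisj, q, ?_, hq2⟩
  have h1 := dist_triangle q p y
  have h2 : dist p y < ε := hp2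
  linarith

theorem no_loc_slow (hX : ¬ FiniteDimensional ℝ X) (h : Cov c r) {i₀ : ι} {x₀ : X} {δ : ℝ}
    (L : Loc c r i₀ x₀ δ)
    (H : ∃ a > (0:ℝ), ∀ F : Finset X, ∀ ε > (0:ℝ), ∃ u : X, ‖u‖ = 1 ∧ ∀ v ∈ F, ∀ t : ℝ, 0 ≤ t →
      ‖v‖ + a * t - ε ≤ ‖v + t • u‖) : False := by
  classical
  obtain ⟨a, ha, H⟩ := H
  have hδ := L.dpos
  have hR := h.pos i₀
  set d₀ := min δ (δ * a / (3 + a)) / 2 with hd₀
  have hd₀pos : 0 < d₀ := by
    rw [hd₀]
    have : 0 < δ * a / (3 + a) := by positivity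
    have := lt_min hδ this
    linarith
  obtain ⟨z, hz1, hz2⟩ := mem_closure_iff_nhds.1 (mem_closure_compl_closedBall hR L.dist_eq)
    (ball x₀ d₀) (ball_mem_nhds x₀ hd₀pos)
  have hzx : dist z x₀ < d₀ := hz1
  have hne : z ≠ x₀ := by
    rintro rfl
    exact hz2 (by rw [mem_closedBall, L.dist_eq])
  set d := dist z x₀ with hd
  have hdpos : 0 < d := dist_pos.2 hne
  have hd1 : d < δ := by
    have : min δ (δ * a / (3 + a)) ≤ δ := min_le_left _ _
    linarith
  have hd2 : d + 3 * d / a < δ := by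
    have h1 : min δ (δ * a / (3 + a)) ≤ δ * a / (3 + a) := min_le_right _ _
    have h2 : d < δ * a / (3 + a) := by
      have : 0 < δ * a / (3 + a) := by positivity
      linarith
    have h3 : d + 3 * d / a = d * (3 + a) / a := by field_simp; ring
    rw [h3, div_lt_iff₀ ha]
    rwa [lt_div_iff₀ (by positivity)] at h2
  set J : Set ι := {k | z ∈ closedBall (c k) (r k)} with hJ
  have hJfin : J.Finite := h.pf z
  set G : Set X := ⋃ j ∈ J, closedBall (c j) (r j) with hG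
  have hGcl : IsClosed G := hJfin.isClosed_biUnion fun j _ => isClosed_closedBall
  set I : Set ι := ⋃ j ∈ J, {k | (closedBall (c j) (r j) ∩ closedBall (c k) (r k)).Nonempty} with hI
  have hIfin : I.Finite := hJfin.biUnion fun j _ => h.star j
  have hzball : z ∈ ball x₀ δ := hd1
  -- gaps
  have hgap : ∀ᶠ e in 𝓝[>] (0:ℝ), ∀ i ∈ I \ J, e < dist z (c i) - r i := by
    rw [eventually_all_finite (hIfin.subset sdiff_subset)]
    intro i hi
    have hpos : 0 < dist z (c i) - r i := by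
      have : ¬ dist z (c i) ≤ r i := hi.2
      linarith [not_le.1 this]
    filter_upwards [Ioo_mem_nhdsGT hpos] with e he using he.2
  obtain ⟨e, he1, he2⟩ := (hgap.and (Ioo_mem_nhdsGT hdpos)).exists
  obtain ⟨u, hu, hH⟩ := H ((hIfin.union hJfin).toFinset.image fun k => z - c k) e he2.1
  have hH' : ∀ k ∈ I ∪ J, ∀ t : ℝ, 0 ≤ t → dist z (c k) + a * t - e ≤ dist (z + t • u) (c k) := by
    intro k hk t ht
    have := hH (z - c k) (Finset.mem_image.2 ⟨k, by simpa using hk, rfl⟩) t ht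
    rw [dist_eq_norm, dist_eq_norm]
    have h2 : z + t • u - c k = z - c k + t • u := by abel
    rw [h2]
    exact this
  set T := 3 * d / a with hT
  have hTpos : 0 < T := by positivity
  have hzG : z ∈ G := by
    obtain ⟨k, hk⟩ := h.cov z
    exact mem_biUnion (show k ∈ J from hk) hk
  have hout : z + T • u ∉ G := by
    intro hG'
    obtain ⟨k, hk, hk'⟩ := mem_iUnion₂.1 hG'
    obtain ⟨hx, -⟩ := L.P2 k z hzball hz2 hk
    have h1 := hH' k (Or.inr hk) T hTpos.le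
    have h2 : dist (z + T • u) (c k) ≤ r k := hk'
    have h3 : r k < dist x₀ (c k) := by
      by_contra hle
      exact hx (not_lt.1 hle)
    have h4 := dist_triangle x₀ z (c k)
    rw [dist_comm x₀ z] at h4
    have h5 : a * T = 3 * d := by rw [hT]; field_simp
    have := he2.2
    linarith
  apply hout
  apply seg_stay hGcl hzG
  intro y hy hyG hycl
  obtain ⟨s, hs, rfl⟩ := (segment_eq_image' ℝ z (z + T • u)) ▸ hy
  have hy' : z + s • (z + T • u - z) = z + (s * T) • u := by module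
  simp only [hy'] at hyG hycl
  set t := s * T with ht
  have ht0 : 0 ≤ t := mul_nonneg hs.1 hTpos.le
  have htT : t ≤ T := by
    have := hs.2
    rw [ht]
    nlinarith
  obtain ⟨k, hk, hk'⟩ := mem_iUnion₂.1 hyG
  obtain ⟨-, hdisj⟩ := L.P2 k z hzball hz2 hk
  have hyball : z + t • u ∈ ball x₀ δ := by
    rw [mem_ball]
    have h1 : dist (z + t • u) z = t := by
      rw [dist_eq_norm, add_sub_cancel_left, norm_smul, hu, mul_one, Real.norm_of_nonneg ht0]
    have h2 := dist_triangle (z + t • u) z x₀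
    linarith
  have hNL : ¬ NL c r (z + t • u) := fun hNL =>
    Set.disjoint_left.1 hdisj (L.P3 _ hyball hNL) hk'
  obtain ⟨i, hiJ, hi⟩ := mem_other h hNL J hycl
  have hiI : i ∈ I := mem_biUnion hk ⟨_, hk', hi⟩
  have h1 := hH' i (Or.inl hiI) t ht0
  have h2 := he1 i ⟨hiI, hiJ⟩
  have h3 : dist (z + t • u) (c i) ≤ r i := hi
  have h4 : 0 ≤ a * t := by positivity
  linarith

theorem core_ineq {v ν : X} {R κ σ τ τ₁ τ₂ s η : ℝ} (hR : 0 < R) (hv : ‖v‖ = R)
    (hκ1 : σ < κ * R) (hκ2 : κ * R ≤ σ + τ₁) (hσ : 0 < σ) (hτ : 0 < τ) (hτ₁ : 0 < τ₁)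
    (hτ₂ : 0 < τ₂) (hs : 0 < s) (hη : 0 < η)
    (hν : ‖ν‖ ≤ τ + τ₂) (h1 : R + τ < ‖v + ν‖) (h2 : σ + τ < ‖κ • v - ν‖)
    (hs1 : τ + τ₂ ≤ s) (hs2 : κ * s ≤ τ) (hτ₂s : s * τ₂ ≤ η * τ / 8)
    (hτ12 : (τ₁ + τ₂) * R ≤ η * σ / 8)
    (H : ∀ u : X, ‖u‖ = 1 → ‖v + s • u‖ + ‖v - s • u‖ ≤ 2 * R + 2 * s - η / 2) : False := by
  set n := ‖ν‖ with hn
  have hnτ : τ < n := by
    have := norm_add_le v ν
    linarith
  have hn0 : 0 < n := by linarith
  have hκ : 0 < κ := by
    by_contra hle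
    push Not at hle
    nlinarith
  set u := n⁻¹ • ν with hu
  have hu1 : ‖u‖ = 1 := by
    rw [hu, norm_smul, norm_inv, Real.norm_of_nonneg hn0.le, inv_mul_cancel₀ hn0.ne']
  have hνu : ν = n • u := by rw [hu, smul_smul, mul_inv_cancel₀ hn0.ne', one_smul]
  have hH := H u hu1
  set P := ‖v + s • u‖ with hP
  set Q := ‖v - s • u‖ with hQ
  have hi : s * τ < n * (P - R) := by
    have e1 : s • (v + ν) = (s - n) • v + n • (v + s • u) := by rw [hνu]; module
    have e2 : ‖s • (v + ν)‖ = s * ‖v + ν‖ := by rw [norm_smul, Real.norm_of_nonneg hs.le]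
    have e3 : ‖(s - n) • v‖ = (s - n) * R := by
      rw [norm_smul, Real.norm_of_nonneg (by linarith), hv]
    have e4 : ‖n • (v + s • u)‖ = n * P := by rw [norm_smul, Real.norm_of_nonneg hn0.le]
    have e5 := norm_add_le ((s - n) • v) (n • (v + s • u))
    rw [← e1, e2, e3, e4] at e5
    nlinarith
  have hii : σ + τ < κ * Q + (n - κ * s) := by
    have e1 : κ • v - ν = κ • (v - s • u) - (n - κ * s) • u := by rw [hνu]; module
    have e2 := norm_sub_le (κ • (v - s • u)) ((n - κ * s) • u)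
    rw [← e1, norm_smul, norm_smul, hu1, mul_one, Real.norm_of_nonneg hκ.le,
      Real.norm_of_nonneg (by linarith : (0:ℝ) ≤ n - κ * s)] at e2
    linarith
  have hPR : s - η / 8 < P - R := by
    by_contra hle
    push Not at hle
    have g1 : 0 < P - R := by
      by_contra hle'
      push Not at hle'
      have : 0 < s * τ := by positivity
      nlinarith
    have g2 : n * (P - R) ≤ (τ + τ₂) * (P - R) := mul_le_mul_of_nonneg_right hν g1.le
    have g3 : (τ + τ₂) * (P - R) ≤ (τ + τ₂) * (s - η / 8) :=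
      mul_le_mul_of_nonneg_left hle (by positivity)
    have g4 : 0 < η * τ₂ := by positivity
    nlinarith
  have hQR : s - η / 8 < Q - R := by
    have g1 : τ₁ + τ₂ < η * κ / 8 := by
      by_contra hle
      push Not at hle
      have : η * κ / 8 * R ≤ (τ₁ + τ₂) * R := mul_le_mul_of_nonneg_right hle hR.le
      have : η * σ < η * (κ * R) := mul_lt_mul_of_pos_left hκ1 hη
      nlinarith
    have g2 : κ * (s - η / 8) < κ * (Q - R) := by nlinarith
    exact lt_of_mul_lt_mul_left g2 hκ.le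
  linarith

theorem no_loc_nlo_at (hX : ¬ FiniteDimensional ℝ X) (h : Cov c r) {i₀ : ι} {x₀ : X} {δ : ℝ}
    (L : Loc c r i₀ x₀ δ)
    (H : ∃ w ∈ {v : X | ∃ s > (0:ℝ), ∃ η > (0:ℝ), ∀ u : X, ‖u‖ = 1 →
      ‖v + s • u‖ + ‖v - s • u‖ ≤ 2 * ‖v‖ + 2 * s - η},
      dist (x₀ - c i₀) w < min (δ / 8) (r i₀ / 2)) : False := by
  have hδ := L.dpos
  have hR := h.pos i₀
  set b := c i₀ with hb
  set R := r i₀ with hRdef
  set v₀ := x₀ - b with hv₀
  have hv₀R : ‖v₀‖ = R := by rw [hv₀, ← dist_eq_norm]; exact L.dist_eq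
  obtain ⟨w, hw1, hw2⟩ := H
  obtain ⟨s', hs', η', hη', hw⟩ := hw1
  have hwd : ‖w - v₀‖ < min (δ / 8) (R / 2) := by rw [← dist_eq_norm, dist_comm]; exact hw2
  have hwd1 : ‖w - v₀‖ < δ / 8 := hwd.trans_le (min_le_left _ _)
  have hwd2 : ‖w - v₀‖ < R / 2 := hwd.trans_le (min_le_right _ _)
  have hwR : |R - ‖w‖| ≤ ‖w - v₀‖ := by
    have h1 := abs_norm_sub_norm_le v₀ w
    rw [norm_sub_rev v₀ w, hv₀R] at h1
    exact h1
  have hwpos : 0 < ‖w‖ := by
    have := le_abs_self (R - ‖w‖)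
    linarith
  set α := R / ‖w‖ with hα
  have hαpos : 0 < α := by positivity
  have hαw : α * ‖w‖ = R := by rw [hα]; field_simp
  set w' := α • w with hw'
  have hw'R : ‖w'‖ = R := by rw [hw', norm_smul, Real.norm_of_nonneg hαpos.le, hαw]
  have hw'v : ‖w' - v₀‖ < δ / 4 := by
    have e1 : w' - v₀ = (α - 1) • w + (w - v₀) := by rw [hw']; module
    have e2 : ‖(α - 1) • w‖ = |R - ‖w‖| := by
      rw [norm_smul, Real.norm_eq_abs, ← abs_of_pos hwpos, ← abs_mul, abs_of_pos hwpos, sub_mul,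
        hαw, one_mul]
    have e3 := norm_add_le ((α - 1) • w) (w - v₀)
    rw [e1]
    linarith
  set s := α * s' with hs
  set η := α * η' with hη
  have hspos : 0 < s := by positivity
  have hηpos : 0 < η := by positivity
  have hNLO : ∀ u : X, ‖u‖ = 1 → ‖w' + s • u‖ + ‖w' - s • u‖ ≤ 2 * R + 2 * s - η := by
    intro u hu
    have e1 : w' + s • u = α • (w + s' • u) := by rw [hw', hs]; module
    have e2 : w' - s • u = α • (w - s' • u) := by rw [hw', hs]; module
    rw [e1, e2, norm_smul, norm_smul, Real.norm_of_nonneg hαpos.le, ← mul_add]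
    have := mul_le_mul_of_nonneg_left (hw u hu) hαpos.le
    have e3 : α * (2 * ‖w‖ + 2 * s' - η') = 2 * R + 2 * s - η := by
      rw [hs, hη, ← hαw]; ring
    rw [← e3]
    exact this
  set x := b + w' with hx
  have hxx₀ : dist x x₀ < δ / 4 := by
    rw [dist_eq_norm]
    have : x - x₀ = w' - v₀ := by rw [hx, hv₀]; abel
    rw [this]
    exact hw'v
  have hxb : dist x b = R := by rw [dist_eq_norm, hx, add_sub_cancel_left, hw'R]
  -- constants
  set τ := min (δ / 4) (s / 2) with hτ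
  have hτpos : 0 < τ := by positivity
  have hτδ : τ ≤ δ / 4 := min_le_left _ _
  have hτs : τ ≤ s / 2 := min_le_right _ _
  set σ := min (min (δ / 16) (η / 32)) (τ * R / (2 * s)) with hσ
  have hσpos : 0 < σ := by positivity
  have hσδ : σ ≤ δ / 16 := (min_le_left _ _).trans (min_le_left _ _)
  have hση : σ ≤ η / 32 := (min_le_left _ _).trans (min_le_right _ _)
  have hστ : σ ≤ τ * R / (2 * s) := min_le_right _ _
  set τ₁ := min σ (η * σ / (16 * R)) with hτ₁
  have hτ₁pos : 0 < τ₁ := by positivity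
  have hτ₁σ : τ₁ ≤ σ := min_le_left _ _
  have hτ₁R : τ₁ ≤ η * σ / (16 * R) := min_le_right _ _
  set τ₂ := min (min τ (η * σ / (16 * R))) (η * τ / (8 * s)) with hτ₂
  have hτ₂pos : 0 < τ₂ := by positivity
  have hτ₂τ : τ₂ ≤ τ := (min_le_left _ _).trans (min_le_left _ _)
  have hτ₂R : τ₂ ≤ η * σ / (16 * R) := (min_le_left _ _).trans (min_le_right _ _)
  have hτ₂s : τ₂ ≤ η * τ / (8 * s) := min_le_right _ _
  -- first member
  obtain ⟨k₁, -, hd₁, q₁, hq₁, hsub₁⟩ := L.approach hX h (y := x) (by linarith) hxb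
    (A := ∅) Set.finite_empty hτ₁pos hσpos (by linarith)
  have hq₁b : R + σ < dist q₁ b := by
    have : Disjoint (closedBall b R) (closedBall q₁ σ) := hd₁.mono_right hsub₁
    rw [disjoint_closedBall_closedBall_iff hR.le hσpos.le, dist_comm] at this
    exact this
  set D := dist q₁ b with hD
  have hDpos : 0 < D := by linarith
  have hDle : D ≤ R + (σ + τ₁) := by
    have := dist_triangle q₁ x b
    linarith
  set v := (R / D) • (q₁ - b) with hv
  have hq₁n : ‖q₁ - b‖ = D := by rw [hD, dist_eq_norm]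
  have hvR : ‖v‖ = R := by
    rw [hv, norm_smul, Real.norm_of_nonneg (by positivity), hq₁n]
    field_simp
  set y := b + v with hy
  have hyb : dist y b = R := by rw [dist_eq_norm, hy, add_sub_cancel_left, hvR]
  have hq₁y : q₁ - y = ((D - R) / R) • v := by
    rw [hy, hv, smul_smul]
    have e : (D - R) / R * (R / D) = 1 - R / D := by field_simp
    rw [e]
    module
  have hq₁y' : dist q₁ y = D - R := by
    rw [dist_eq_norm, hq₁y, norm_smul, hvR, Real.norm_of_nonneg (div_nonneg (by linarith) hR.le)]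
    field_simp
  have hyx : dist y x ≤ 4 * σ := by
    have := dist_triangle y q₁ x
    rw [dist_comm y q₁] at this
    linarith
  -- second member
  obtain ⟨k₂, hk₂, hd₂, q₂, hq₂, hsub₂⟩ := L.approach hX h (y := y)
    (by have := dist_triangle y x x₀; linarith) hyb (h.star k₁) hτ₂pos hτpos hτδ
  have hq₂b : R + τ < dist q₂ b := by
    have : Disjoint (closedBall b R) (closedBall q₂ τ) := hd₂.mono_right hsub₂
    rw [disjoint_closedBall_closedBall_iff hR.le hτpos.le, dist_comm] at this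
    exact this
  have hq₁q₂ : σ + τ < dist q₁ q₂ := by
    have hdd : Disjoint (closedBall (c k₁) (r k₁)) (closedBall (c k₂) (r k₂)) := by
      rw [Set.disjoint_iff_inter_eq_empty]
      exact not_nonempty_iff_eq_empty.1 hk₂
    have : Disjoint (closedBall q₁ σ) (closedBall q₂ τ) := hdd.mono hsub₁ hsub₂
    rw [disjoint_closedBall_closedBall_iff hσpos.le hτpos.le] at this
    exact this
  have hκR : (D - R) / R * R = D - R := by field_simp
  refine core_ineq (v := v) (ν := q₂ - y) (R := R) (κ := (D - R) / R) (σ := σ) (τ := τ)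
    (τ₁ := τ₁) (τ₂ := τ₂) (s := s) (η := η) hR hvR (by rw [hκR]; linarith) (by rw [hκR]; linarith)
    hσpos hτpos hτ₁pos hτ₂pos hspos hηpos (by rw [← dist_eq_norm]; exact hq₂) ?_ ?_
    (by linarith) ?_ ?_ ?_ ?_
  · have : v + (q₂ - y) = q₂ - b := by rw [hy]; abel
    rw [this, ← dist_eq_norm]
    exact hq₂b
  · have : ((D - R) / R) • v - (q₂ - y) = q₁ - q₂ := by rw [← hq₁y]; abel
    rw [this, ← dist_eq_norm]
    exact hq₁q₂
  · have e1 : D - R ≤ 2 * σ := by linarith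
    have e2 : 2 * σ * s ≤ τ * R := by
      rw [le_div_iff₀ (by positivity)] at hστ
      linarith
    rw [div_mul_eq_mul_div, div_le_iff₀ hR]
    nlinarith
  · rw [le_div_iff₀ (by positivity)] at hτ₂s
    linarith
  · rw [le_div_iff₀ (by positivity)] at hτ₁R hτ₂R
    linarith
  · intro u hu
    have e0 := hNLO u hu
    have e1 : v + s • u = (w' + s • u) + (v - w') := by abel
    have e2 : v - s • u = (w' - s • u) + (v - w') := by abel
    have e3 := norm_add_le (w' + s • u) (v - w')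
    have e4 := norm_add_le (w' - s • u) (v - w')
    rw [← e1] at e3
    rw [← e2] at e4
    have e5 : ‖v - w'‖ ≤ 4 * σ := by
      have : v - w' = y - x := by rw [hy, hx]; abel
      rw [this, ← dist_eq_norm]
      exact hyx
    linarith

theorem no_loc_nlo (hX : ¬ FiniteDimensional ℝ X) (h : Cov c r) {i₀ : ι} {x₀ : X} {δ : ℝ}
    (L : Loc c r i₀ x₀ δ)
    (H : Dense {v : X | ∃ s > (0:ℝ), ∃ η > (0:ℝ), ∀ u : X, ‖u‖ = 1 →
      ‖v + s • u‖ + ‖v - s • u‖ ≤ 2 * ‖v‖ + 2 * s - η}) : False := by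
  have hδ := L.dpos
  have hR := h.pos i₀
  obtain ⟨w, hw1, hw2⟩ := H.exists_dist_lt (x₀ - c i₀)
    (show 0 < min (δ / 8) (r i₀ / 2) by positivity)
  exact no_loc_nlo_at hX h L ⟨w, hw1, hw2⟩

end Pool.Agent.H130R9
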