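import Pool.Agent.H130R9.SF3

set_option autoImplicit false
set_option linter.all false

open Set Metric Topology Filter

namespace Pool.Agent.H130R9

variable {X : Type*} [NormedAddCommGroup X] [NormedSpace ℝ X]

theorem exists_cov {ι : Type*} {c : ι → X} {r : ι → ℝ} (hpos : ∀ i, 0 < r i)
    (hcov : (⋃ i, closedBall (c i) (r i)) = univ)
    (hstar : ∀ i, {j | (closedBall (c i) (r i) ∩ closedBall (c j) (r j)).Nonempty}.Finite) :
    ∃ S : Set ι, Cov (fun i : S => c i) (fun i : S => r i) := by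
  have hcov' : ∀ x, ∃ i, x ∈ closedBall (c i) (r i) := by
    intro x
    have : x ∈ ⋃ i, closedBall (c i) (r i) := by rw [hcov]; trivial
    exact mem_iUnion.1 this
  obtain ⟨S, hS1, hS2⟩ := exists_min (fun i => closedBall (c i) (r i)) hcov' (by
    intro x
    obtain ⟨i, hi⟩ := hcov' x
    exact (hstar i).subset fun j hj => ⟨x, hi, hj⟩)
  refine ⟨S, fun i => hpos i, ?_, ?_, ?_⟩
  · intro x
    obtain ⟨i, hi, hx⟩ := hS1 x
    exact ⟨⟨i, hi⟩, hx⟩
  · intro i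
    exact Set.Finite.preimage (f := ((↑) : S → ι)) Subtype.val_injective.injOn (hstar i.1)
  · intro i
    obtain ⟨x, hx1, hx2⟩ := hS2 i.1 i.2
    exact ⟨x, hx1, fun j hj => hx2 j.1 j.2 (fun h => hj (Subtype.ext h))⟩

theorem nlo_of_diff {v : X} (hv : DifferentiableAt ℝ (fun y : X => ‖y‖) v) :
    ∃ s > (0:ℝ), ∃ η > (0:ℝ), ∀ u : X, ‖u‖ = 1 →
      ‖v + s • u‖ + ‖v - s • u‖ ≤ 2 * ‖v‖ + 2 * s - η := by
  obtain ⟨L, hL⟩ := hv
  have h1 := hL.isLittleO.def (show (0:ℝ) < 1 / 4 by norm_num)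
  obtain ⟨κ, hκ, hball⟩ := Metric.eventually_nhds_iff_ball.1 h1
  refine ⟨κ / 2, by positivity, κ / 2, by positivity, ?_⟩
  intro u hu
  have hn : ∀ w : X, ‖w‖ = κ / 2 → ‖v + w‖ ≤ ‖v‖ + L w + κ / 8 := by
    intro w hw
    have := hball (v + w) (by rw [mem_ball, dist_eq_norm, add_sub_cancel_left, hw]; linarith)
    simp only [add_sub_cancel_left, hw] at this
    have h3 := (abs_le.1 ((Real.norm_eq_abs _).symm.le.trans this)).2
    linarith
  have hsu : ‖(κ / 2) • u‖ = κ / 2 := by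
    rw [norm_smul, hu, mul_one, Real.norm_of_nonneg (by positivity)]
  have e1 := hn ((κ / 2) • u) hsu
  have e2 := hn (-((κ / 2) • u)) (by rw [norm_neg, hsu])
  rw [map_neg, ← sub_eq_add_neg] at e2
  linarith

theorem nlo_of_lur
    (hL : ∀ x : X, ‖x‖ = 1 → ∀ y : ℕ → X, (∀ n, ‖y n‖ = 1) →
      Tendsto (fun n => ‖x + y n‖) atTop (𝓝 2) → Tendsto y atTop (𝓝 x)) {v : X} (hv : v ≠ 0) :
    ∃ s > (0:ℝ), ∃ η > (0:ℝ), ∀ u : X, ‖u‖ = 1 →
      ‖v + s • u‖ + ‖v - s • u‖ ≤ 2 * ‖v‖ + 2 * s - η := by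
  by_contra hno
  push Not at hno
  have hvp : 0 < ‖v‖ := norm_pos_iff.2 hv
  have hch : ∀ n : ℕ, ∃ u : X, ‖u‖ = 1 ∧
      2 * ‖v‖ + 2 * ‖v‖ - ‖v‖ * (1 / ((n:ℝ) + 1)) < ‖v + ‖v‖ • u‖ + ‖v - ‖v‖ • u‖ :=
    fun n => hno ‖v‖ hvp (‖v‖ * (1 / ((n:ℝ) + 1))) (by positivity)
  choose u hu1 hu2 using hch
  set x := ‖v‖⁻¹ • v with hx
  have hx1 : ‖x‖ = 1 := by rw [hx, norm_smul, norm_inv, norm_norm, inv_mul_cancel₀ hvp.ne']
  have hvx : v = ‖v‖ • x := by rw [hx, smul_smul, mul_inv_cancel₀ hvp.ne', one_smul]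
  have hsum : ∀ n : ℕ, 4 - 1 / ((n:ℝ) + 1) < ‖x + u n‖ + ‖x - u n‖ := by
    intro n
    have e1 : ‖v + ‖v‖ • u n‖ = ‖v‖ * ‖x + u n‖ := by
      have e0 : v + ‖v‖ • u n = ‖v‖ • (x + u n) := by rw [smul_add, ← hvx]
      rw [e0, norm_smul, norm_norm]
    have e2 : ‖v - ‖v‖ • u n‖ = ‖v‖ * ‖x - u n‖ := by
      have e0 : v - ‖v‖ • u n = ‖v‖ • (x - u n) := by rw [smul_sub, ← hvx]
      rw [e0, norm_smul, norm_norm]
    have := hu2 n
    rw [e1, e2, ← mul_add] at this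
    have h2 : ‖v‖ * (4 - 1 / ((n:ℝ) + 1)) < ‖v‖ * (‖x + u n‖ + ‖x - u n‖) := by linarith
    exact lt_of_mul_lt_mul_left h2 hvp.le
  have hlim : Tendsto (fun n : ℕ => 2 - 1 / ((n:ℝ) + 1)) atTop (𝓝 2) := by
    have := (tendsto_one_div_add_atTop_nhds_zero_nat (𝕜 := ℝ)).const_sub 2
    simpa using this
  have hb : ∀ w : X, ‖w‖ = 1 → ‖x + w‖ ≤ 2 := by
    intro w hw
    have := norm_add_le x w
    linarith
  have t1 : Tendsto (fun n => ‖x + u n‖) atTop (𝓝 2) := by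
    refine tendsto_of_tendsto_of_tendsto_of_le_of_le hlim tendsto_const_nhds ?_
      (fun n => hb _ (hu1 n))
    intro n
    have h1 := hsum n
    have h2 := hb (-(u n)) (by rw [norm_neg, hu1])
    rw [← sub_eq_add_neg] at h2
    show 2 - 1 / ((n:ℝ) + 1) ≤ ‖x + u n‖
    linarith
  have t2 : Tendsto (fun n => ‖x + -(u n)‖) atTop (𝓝 2) := by
    refine tendsto_of_tendsto_of_tendsto_of_le_of_le hlim tendsto_const_nhds ?_
      (fun n => hb _ (by rw [norm_neg, hu1]))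
    intro n
    have h1 := hsum n
    have h2 := hb (u n) (hu1 n)
    show 2 - 1 / ((n:ℝ) + 1) ≤ ‖x + -(u n)‖
    rw [← sub_eq_add_neg]
    linarith
  have l1 := hL x hx1 u hu1 t1
  have l2 := hL x hx1 (fun n => -(u n)) (fun n => by rw [norm_neg, hu1]) t2
  have l3 := l1.neg
  have h3 : x = -x := tendsto_nhds_unique l2 l3
  have h4 : x = 0 := by
    have h5 : x + x = 0 := by
      nth_rewrite 2 [h3]
      exact add_neg_cancel x
    have h6 : (2:ℝ) • x = 0 := by rw [two_smul]; exact h5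
    exact (smul_eq_zero.1 h6).resolve_left (by norm_num)
  rw [h4, norm_zero] at hx1
  norm_num at hx1

theorem slow_of_octahedral
    (hO : ∀ F : Finset X, (∀ x ∈ F, ‖x‖ = 1) → ∀ ε > (0:ℝ), ∃ y : X, ‖y‖ = 1 ∧
      ∀ x ∈ F, 2 - ε ≤ ‖x + y‖) :
    ∃ a > (0:ℝ), ∀ F : Finset X, ∀ ε > (0:ℝ), ∃ u : X, ‖u‖ = 1 ∧ ∀ v ∈ F, ∀ t : ℝ, 0 ≤ t →
      ‖v‖ + a * t - ε ≤ ‖v + t • u‖ := by
  classical
  refine ⟨1 / 2, by norm_num, ?_⟩
  intro F ε hε
  set M := ∑ v ∈ F, ‖v‖ with hM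
  have hM0 : 0 ≤ M := Finset.sum_nonneg fun _ _ => norm_nonneg _
  have hMv : ∀ v ∈ F, ‖v‖ ≤ M := fun v hv =>
    Finset.single_le_sum (f := fun v : X => ‖v‖) (fun _ _ => norm_nonneg _) hv
  set e := min (1 / 2) (ε / (M + 1)) with he
  have he0 : 0 < e := by positivity
  have he1 : e ≤ 1 / 2 := min_le_left _ _
  have he2 : e ≤ ε / (M + 1) := min_le_right _ _
  obtain ⟨y, hy1, hy2⟩ := hO ((F.filter (fun v => v ≠ 0)).image fun v => ‖v‖⁻¹ • v) (by
    intro x hx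
    obtain ⟨v, hv, rfl⟩ := Finset.mem_image.1 hx
    have hv0 := (Finset.mem_filter.1 hv).2
    rw [norm_smul, norm_inv, norm_norm, inv_mul_cancel₀ (norm_ne_zero_iff.2 hv0)]) e he0
  refine ⟨y, hy1, ?_⟩
  intro v hv t ht
  by_cases hv0 : v = 0
  · subst hv0
    rw [norm_zero, zero_add, zero_add, norm_smul, hy1, Real.norm_of_nonneg ht]
    linarith
  · have hvp : 0 < ‖v‖ := norm_pos_iff.2 hv0
    have h1 := hy2 (‖v‖⁻¹ • v) (Finset.mem_image.2 ⟨v, Finset.mem_filter.2 ⟨hv, hv0⟩, rfl⟩)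
    set x := ‖v‖⁻¹ • v with hx
    set A := ‖v‖ with hA
    have hx1 : ‖x‖ = 1 := by rw [hx, norm_smul, norm_inv, norm_norm, inv_mul_cancel₀ hvp.ne']
    have hvx : v = A • x := by rw [hx, smul_smul, mul_inv_cancel₀ hvp.ne', one_smul]
    have hAe : A * e ≤ ε := by
      have g1 : A * e ≤ A * (ε / (M + 1)) := mul_le_mul_of_nonneg_left he2 hvp.le
      have g2 : A * (ε / (M + 1)) ≤ (M + 1) * (ε / (M + 1)) :=
        mul_le_mul_of_nonneg_right (by linarith [hMv v hv]) (by positivity)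
      have g3 : (M + 1) * (ε / (M + 1)) = ε := by field_simp
      linarith
    rcases le_total t A with h | h
    · have e1 : v + t • y = A • (x + y) - (A - t) • y := by
        conv_lhs => rw [hvx]
        module
      have e2 := norm_sub_norm_le (A • (x + y)) ((A - t) • y)
      rw [← e1, norm_smul, norm_smul, hy1, Real.norm_of_nonneg hvp.le,
        Real.norm_of_nonneg (by linarith : (0:ℝ) ≤ A - t)] at e2
      have e3 : A * (2 - e) ≤ A * ‖x + y‖ := mul_le_mul_of_nonneg_left h1 hvp.le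
      nlinarith
    · have e1 : v + t • y = t • (x + y) - (t - A) • x := by
        conv_lhs => rw [hvx]
        module
      have e2 := norm_sub_norm_le (t • (x + y)) ((t - A) • x)
      rw [← e1, norm_smul, norm_smul, hx1, Real.norm_of_nonneg ht,
        Real.norm_of_nonneg (by linarith : (0:ℝ) ≤ t - A)] at e2
      have e3 : t * (2 - e) ≤ t * ‖x + y‖ := mul_le_mul_of_nonneg_left h1 ht
      nlinarith

end Pool.Agent.H130R9
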