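import Pool.Agent.H130R9.SF4

set_option autoImplicit false
set_option linter.all false

open Set Metric Topology Filter

namespace Pool.Agent.H130R9

variable {X : Type*} [NormedAddCommGroup X] [NormedSpace ℝ X]

def LO (v : X) : Prop := ∀ s > (0:ℝ), ∀ η > (0:ℝ), ∃ u : X, ‖u‖ = 1 ∧
  2 * ‖v‖ + 2 * s - η < ‖v + s • u‖ + ‖v - s • u‖

theorem pigeon {κ : Type*} {T : Set κ} (hT : T.Finite) (f : κ → (X →L[ℝ] ℝ)) {ε : ℝ}
    (hε : 0 < ε) :
    ∃ M : ℕ, ∀ ν : ℕ → X, (∀ n, ‖ν n‖ ≤ 1) →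
      ∃ m n, m < n ∧ n ≤ M ∧ ∀ j ∈ T, |f j (ν n - ν m)| ≤ ε := by
  classical
  haveI : Fintype T := hT.fintype
  let Φ : X →L[ℝ] (T → ℝ) := ContinuousLinearMap.pi (fun j => f j.1)
  have hK : IsCompact (closedBall (0 : T → ℝ) ‖Φ‖) := isCompact_closedBall _ _
  obtain ⟨t, htf, ht⟩ := Metric.totallyBounded_iff.1 hK.totallyBounded (ε / 2) (by positivity)
  refine ⟨htf.toFinset.card, ?_⟩
  intro ν hν
  have hmem : ∀ n, ∃ y ∈ t, Φ (ν n) ∈ ball y (ε / 2) := by
    intro n
    have h1 : Φ (ν n) ∈ closedBall (0 : T → ℝ) ‖Φ‖ := by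
      rw [mem_closedBall_zero_iff]
      calc ‖Φ (ν n)‖ ≤ ‖Φ‖ * ‖ν n‖ := Φ.le_opNorm _
        _ ≤ ‖Φ‖ * 1 := by gcongr; exact hν n
        _ = ‖Φ‖ := mul_one _
    obtain ⟨y, hy, hy2⟩ := mem_iUnion₂.1 (ht h1)
    exact ⟨y, hy, hy2⟩
  choose y hy1 hy2 using hmem
  obtain ⟨m, hm, n, hn, hmn, heq⟩ := Finset.exists_ne_map_eq_of_card_lt_of_maps_to
    (s := Finset.range (htf.toFinset.card + 1)) (t := htf.toFinset) (f := y) (by simp)
    (fun n _ => by simpa using hy1 n)
  have key : ∀ a b, y a = y b → ∀ j ∈ T, |f j (ν a - ν b)| ≤ ε := by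
    intro a b hab j hj
    have h1 : dist (Φ (ν a)) (Φ (ν b)) ≤ ε := by
      have e1 : dist (Φ (ν a)) (y a) < ε / 2 := hy2 a
      have e2 : dist (Φ (ν b)) (y b) < ε / 2 := hy2 b
      rw [hab] at e1
      have := dist_triangle_right (Φ (ν a)) (Φ (ν b)) (y b)
      linarith
    have h2 := dist_le_pi_dist (Φ (ν a)) (Φ (ν b)) ⟨j, hj⟩
    rw [Real.dist_eq] at h2
    rw [map_sub]
    exact h2.trans h1
  have hm' : m ≤ htf.toFinset.card := Nat.lt_succ_iff.1 (Finset.mem_range.1 hm)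
  have hn' : n ≤ htf.toFinset.card := Nat.lt_succ_iff.1 (Finset.mem_range.1 hn)
  rcases lt_or_gt_of_ne hmn with h | h
  · exact ⟨m, n, h, hn', key n m heq.symm⟩
  · exact ⟨n, m, h, hm', key m n heq⟩

theorem lemmaK {w : X} {η : ℝ} (hη : 0 < η) (hLO : ∀ v ∈ ball w η, LO v)
    {κ : Type*} {T : Set κ} (hT : T.Finite) (f : κ → (X →L[ℝ] ℝ)) {ε : ℝ} (hε : 0 < ε) :
    ∃ h : X, ‖h‖ ≤ 1 ∧ (∀ j ∈ T, |f j h| ≤ ε) ∧
      ∀ t : ℝ, 0 ≤ t → ‖w‖ + (1 - ε) * t - ε ≤ ‖w + t • h‖ := by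
  classical
  obtain ⟨M, hM⟩ := pigeon hT f hε
  set s := η / ((M:ℝ) + 1) with hs
  have hspos : 0 < s := by positivity
  set e := min ε (2 * s * ε) / ((M:ℝ) + 1) with he
  have hepos : 0 < e := by positivity
  have hpick : ∀ v : X, ∃ u : X, ‖u‖ ≤ 1 ∧ (v ∈ ball w η →
      ‖v‖ + s - e ≤ ‖v + s • u‖ ∧ ‖v‖ + s - e ≤ ‖v - s • u‖) := by
    intro v
    by_cases hv : v ∈ ball w η
    · obtain ⟨u, hu, huv⟩ := hLO v hv s hspos e hepos
      refine ⟨u, hu.le, fun _ => ?_⟩
      have hsu : ‖s • u‖ = s := by rw [norm_smul, hu, mul_one, Real.norm_of_nonneg hspos.le]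
      have h1 := norm_add_le v (s • u)
      have h2 := norm_sub_le v (s • u)
      rw [hsu] at h1 h2
      constructor <;> linarith
    · exact ⟨0, by simp, fun h => absurd h hv⟩
  choose pick hp1 hp2 using hpick
  let P : ℕ → X := fun n => Nat.rec w (fun _ p => p - s • pick p) n
  have hP0 : P 0 = w := rfl
  have hPs : ∀ n, P (n + 1) = P n - s • pick (P n) := fun n => rfl
  have hsp : ∀ v, ‖s • pick v‖ ≤ s := by
    intro v
    rw [norm_smul, Real.norm_of_nonneg hspos.le]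
    have := hp1 v
    nlinarith
  have hPd : ∀ n : ℕ, ‖P n - w‖ ≤ n * s := by
    intro n
    induction n with
    | zero => simp [hP0]
    | succ n ih =>
      rw [hPs]
      have h1 : P n - s • pick (P n) - w = (P n - w) - s • pick (P n) := by abel
      rw [h1]
      have h2 := norm_sub_le (P n - w) (s • pick (P n))
      have h3 := hsp (P n)
      push_cast
      linarith
  have hball : ∀ n : ℕ, n ≤ M → P n ∈ ball w η := by
    intro n hn
    rw [mem_ball, dist_eq_norm]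
    have h1 := hPd n
    have h2 : (n:ℝ) ≤ M := by exact_mod_cast hn
    have h3 : ((M:ℝ) + 1) * s = η := by rw [hs]; field_simp
    nlinarith
  have hPn : ∀ n : ℕ, n ≤ M → ‖w‖ + n * (s - e) ≤ ‖P n‖ := by
    intro n
    induction n with
    | zero => intro _; simp [hP0]
    | succ n ih =>
      intro hn
      have h1 := ih (by omega)
      have h2 := (hp2 (P n) (hball n (by omega))).2
      rw [hPs]
      push_cast
      linarith
  have hdiff : ∀ m k : ℕ, ‖P (m + 1 + k) - w + s • pick (P m)‖ ≤ (m + k) * s := by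
    intro m k
    induction k with
    | zero =>
      have h1 : P (m + 1 + 0) - w + s • pick (P m) = P m - w := by
        rw [Nat.add_zero, hPs]; abel
      rw [h1]
      simpa using hPd m
    | succ k ih =>
      have h1 : P (m + 1 + (k + 1)) - w + s • pick (P m)
          = (P (m + 1 + k) - w + s • pick (P m)) - s • pick (P (m + 1 + k)) := by
        rw [← Nat.add_assoc, hPs]; abel
      rw [h1]
      have h2 := norm_sub_le (P (m + 1 + k) - w + s • pick (P m)) (s • pick (P (m + 1 + k)))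
      have h3 := hsp (P (m + 1 + k))
      push_cast
      linarith
  obtain ⟨m, n, hmn, hnM, hΦ⟩ := hM (fun n => pick (P n)) (fun n => hp1 _)
  obtain ⟨k, rfl⟩ : ∃ k, n = m + 1 + k := ⟨n - (m + 1), by omega⟩
  set n := m + 1 + k with hn
  have hnn : (n:ℝ) = m + 1 + k := by rw [hn]; push_cast; ring
  have g1 := (hp2 (P n) (hball n hnM)).1
  have g2 := hPn n hnM
  have g3 := hdiff m k
  have hgrow : ‖w‖ + 2 * s - ((n:ℝ) + 1) * e ≤ ‖w + s • (pick (P n) - pick (P m))‖ := by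
    have e1 : w + s • (pick (P n) - pick (P m))
        = (P n + s • pick (P n)) - (P n - w + s • pick (P m)) := by module
    rw [e1]
    have e2 := norm_sub_norm_le (P n + s • pick (P n)) (P n - w + s • pick (P m))
    have e3 : ‖P n - w + s • pick (P m)‖ ≤ ((m:ℝ) + k) * s := g3
    have e4 : (n:ℝ) * (s - e) + s - e - ((m:ℝ) + k) * s = 2 * s - ((n:ℝ) + 1) * e := by
      rw [hnn]; ring
    linarith
  have hE : ((n:ℝ) + 1) * e ≤ min ε (2 * s * ε) := by
    have h1 : (n:ℝ) + 1 ≤ (M:ℝ) + 1 := by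
      have : (n:ℝ) ≤ M := by exact_mod_cast hnM
      linarith
    calc ((n:ℝ) + 1) * e ≤ ((M:ℝ) + 1) * e := mul_le_mul_of_nonneg_right h1 hepos.le
      _ = min ε (2 * s * ε) := by rw [he]; field_simp
  set E := ((n:ℝ) + 1) * e with hEdef
  have hE1 : E ≤ ε := hE.trans (min_le_left _ _)
  have hE2 : E ≤ 2 * s * ε := hE.trans (min_le_right _ _)
  set h := (1 / 2 : ℝ) • (pick (P n) - pick (P m)) with hh
  have hh1 : ‖h‖ ≤ 1 := by
    rw [hh, norm_smul, Real.norm_of_nonneg (by norm_num : (0:ℝ) ≤ 1 / 2)]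
    have h1 := norm_sub_le (pick (P n)) (pick (P m))
    have h2 := hp1 (P n)
    have h3 := hp1 (P m)
    linarith
  have hw2 : ‖w‖ + 2 * s - E ≤ ‖w + (2 * s) • h‖ := by
    have : w + (2 * s) • h = w + s • (pick (P n) - pick (P m)) := by
      rw [hh]; module
    rw [this]
    exact hgrow
  refine ⟨h, hh1, ?_, ?_⟩
  · intro j hj
    have h1 := hΦ j hj
    have h2 : f j h = (1 / 2) * f j (pick (P n) - pick (P m)) := by rw [hh, map_smul, smul_eq_mul]
    rw [h2, abs_mul, abs_of_nonneg (by norm_num : (0:ℝ) ≤ 1 / 2)]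
    have h3 := abs_nonneg (f j (pick (P n) - pick (P m)))
    linarith
  · intro t ht
    rcases le_total t (2 * s) with hts | hts
    · have e1 : w + (2 * s) • h = (w + t • h) + (2 * s - t) • h := by module
      have e2 := norm_add_le (w + t • h) ((2 * s - t) • h)
      rw [← e1, norm_smul, Real.norm_of_nonneg (by linarith : (0:ℝ) ≤ 2 * s - t)] at e2
      have e3 : (2 * s - t) * ‖h‖ ≤ 2 * s - t := by
        have : 0 ≤ 2 * s - t := by linarith
        nlinarith
      have e4 : 0 ≤ ε * t := by positivity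
      linarith
    · have htpos : 0 < t := by linarith
      have e1 : t • (w + (2 * s) • h) = (t - 2 * s) • w + (2 * s) • (w + t • h) := by module
      have e2 := norm_add_le ((t - 2 * s) • w) ((2 * s) • (w + t • h))
      rw [← e1, norm_smul, norm_smul, norm_smul, Real.norm_of_nonneg ht,
        Real.norm_of_nonneg (by linarith : (0:ℝ) ≤ t - 2 * s),
        Real.norm_of_nonneg (by linarith : (0:ℝ) ≤ 2 * s)] at e2
      have e3 : t * (‖w‖ + 2 * s - E) ≤ t * ‖w + (2 * s) • h‖ :=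
        mul_le_mul_of_nonneg_left hw2 ht
      have e4 : t * E ≤ t * (2 * s * ε) := mul_le_mul_of_nonneg_left hE2 ht
      have e5 : 2 * s * (‖w‖ + (1 - ε) * t) ≤ 2 * s * ‖w + t • h‖ := by nlinarith
      have e6 := le_of_mul_le_mul_left e5 (by linarith : (0:ℝ) < 2 * s)
      linarith

end Pool.Agent.H130R9
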