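import Pool.Agent.H130R9.SF5

set_option autoImplicit false
set_option linter.all false

open Set Metric Topology Filter

namespace Pool.Agent.H130R9

variable {X : Type*} [NormedAddCommGroup X] [NormedSpace ℝ X] {ι : Type*} {c : ι → X} {r : ι → ℝ}

theorem growth {b x₀ z ck h : X} {R rk D η ε M₀ l : ℝ} (hR : ‖x₀ - b‖ = R)
    (hη : 0 < η) (hε : 0 < ε) (hD : 0 < D) (hl : 0 < l) (hrk : rk ≤ M₀)
    (hdisj : R + rk < dist b ck) (hz : dist z x₀ ≤ D) (hm1 : ‖z - ck‖ ≤ rk)
    (hm2 : η / 2 ≤ ‖z - ck‖) (hdep : rk - ‖z - ck‖ ≤ D) (hε1 : ε ≤ 1 / 2) (hε2 : ε ≤ D)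
    (hh : ∀ t : ℝ, 0 ≤ t →
      ‖(x₀ - b) - (η / 2 * ‖z - ck‖⁻¹) • (z - ck)‖ + (1 - ε) * t - ε ≤
        ‖(x₀ - b) - (η / 2 * ‖z - ck‖⁻¹) • (z - ck) + t • h‖)
    (hl2 : (8 * M₀ / η + 3) * D ≤ l) : rk < ‖z - l • h - ck‖ := by
  set m := ‖z - ck‖ with hm
  have hmpos : 0 < m := by linarith
  have hM₀ : 0 < M₀ := by linarith
  set a := η / 2 * m⁻¹ with ha
  have hapos : 0 < a := by positivity
  have ham : a * m = η / 2 := by rw [ha]; field_simp
  have ha1 : a ≤ 1 := by
    by_contra hlt
    push Not at hlt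
    nlinarith
  -- lower bound for p
  have hp : R + η / 2 - D ≤ ‖(x₀ - b) - a • (z - ck)‖ := by
    have e1 : (x₀ - b) - a • (z - ck) = (ck - b) - (z - x₀) + (1 - a) • (z - ck) := by module
    have e2 : R + rk < ‖ck - b‖ := by rw [← dist_eq_norm, dist_comm]; exact hdisj
    have e3 : ‖z - x₀‖ ≤ D := by rw [← dist_eq_norm]; exact hz
    have e4 : ‖(1 - a) • (z - ck)‖ = (1 - a) * m := by
      rw [norm_smul, Real.norm_of_nonneg (by linarith)]
    have e5 := norm_sub_norm_le (ck - b) (z - x₀)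
    have e6 : ‖(ck - b) - (z - x₀)‖ ≤ ‖(x₀ - b) - a • (z - ck)‖ + ‖(1 - a) • (z - ck)‖ := by
      have : (ck - b) - (z - x₀) = ((x₀ - b) - a • (z - ck)) - (1 - a) • (z - ck) := by module
      rw [this]
      exact norm_sub_le _ _
    rw [e4] at e6
    have e7 : (1 - a) * m = m - η / 2 := by rw [sub_mul, one_mul, ham]
    rw [e7] at e6
    linarith
  have h1 := hh (a * l) (by positivity)
  have h2 : ‖(x₀ - b) - a • (z - ck) + (a * l) • h‖ ≤ R + a * ‖z - l • h - ck‖ := by
    have e1 : (x₀ - b) - a • (z - ck) + (a * l) • h = (x₀ - b) - a • (z - l • h - ck) := by module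
    rw [e1]
    have e2 := norm_sub_le (x₀ - b) (a • (z - l • h - ck))
    rw [norm_smul, Real.norm_of_nonneg hapos.le, hR] at e2
    exact e2
  have h3 : η / 2 - D + (1 - ε) * (a * l) - ε ≤ a * ‖z - l • h - ck‖ := by linarith
  -- compare with a * rk
  have h4 : a * rk < a * ‖z - l • h - ck‖ := by
    have e1 : a * rk ≤ a * (m + D) := mul_le_mul_of_nonneg_left (by linarith) hapos.le
    have e2 : a * ((8 * M₀ / η + 3) * D) ≤ a * l := mul_le_mul_of_nonneg_left hl2 hapos.le
    have e3 : (1 / 2) * (a * l) ≤ (1 - ε) * (a * l) :=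
      mul_le_mul_of_nonneg_right (by linarith) (by positivity)
    -- a * (4 M₀/η) * D ≥ 2 D
    have e4 : 2 * D ≤ a * (4 * M₀ / η) * D := by
      have g1 : a * (4 * M₀ / η) = 2 * M₀ / m := by
        rw [ha]; field_simp; ring
      rw [g1]
      have g2 : 2 ≤ 2 * M₀ / m := by
        rw [le_div_iff₀ hmpos]; linarith
      nlinarith
    have e5 : a * ((8 * M₀ / η + 3) * D) = 2 * (a * (4 * M₀ / η) * D) + 3 * (a * D) := by ring
    have e6 : 0 < a * D := by positivity
    have e7 : a * (m + D) = η / 2 + a * D := by rw [mul_add, ham]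
    nlinarith
  exact lt_of_mul_lt_mul_left h4 hapos.le

theorem no_loc_bdd (hX : ¬ FiniteDimensional ℝ X) (h : Cov c r) {i₀ : ι} {x₀ : X} {δ : ℝ}
    (L : Loc c r i₀ x₀ δ) {ρ : ℝ} (hρ : 0 < ρ) {N : ℕ} {M₀ : ℝ}
    (hN : ∀ y ∈ ball x₀ ρ, {i | y ∈ closedBall (c i) (r i)}.ncard ≤ N)
    (hM₀ : ∀ y ∈ ball x₀ ρ, ∀ i, y ∈ closedBall (c i) (r i) → r i ≤ M₀) : False := by
  classical
  have hδ := L.dpos
  have hR := h.pos i₀
  by_cases Hn : ∃ w ∈ {v : X | ∃ s > (0:ℝ), ∃ η > (0:ℝ), ∀ u : X, ‖u‖ = 1 →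
      ‖v + s • u‖ + ‖v - s • u‖ ≤ 2 * ‖v‖ + 2 * s - η},
      dist (x₀ - c i₀) w < min (δ / 8) (r i₀ / 2)
  · exact no_loc_nlo_at hX h L Hn
  set η := min (δ / 8) (r i₀ / 2) with hη
  have hηpos : 0 < η := by positivity
  have hηδ : η ≤ δ / 8 := min_le_left _ _
  have hLO : ∀ w ∈ ball (x₀ - c i₀) η, LO w := by
    intro w hw s hs e he
    by_contra hno
    push Not at hno
    exact Hn ⟨w, ⟨s, hs, e, he, hno⟩, by rw [dist_comm]; exact hw⟩
  have hM₀pos : 0 < M₀ := lt_of_lt_of_le hR (hM₀ x₀ (mem_ball_self hρ) i₀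
    (by rw [mem_closedBall, L.dist_eq]))
  set A := 8 * M₀ / η + 4 with hA
  have hA1 : 1 ≤ A := by
    have : 0 < 8 * M₀ / η := by positivity
    linarith
  have hA0 : 0 < A := by linarith
  set ds := δ / 8 / A ^ (N + 1) with hds
  have hdspos : 0 < ds := by positivity
  obtain ⟨z₀, hz1, hz2⟩ := mem_closure_iff_nhds.1 (mem_closure_compl_closedBall hR L.dist_eq)
    (ball x₀ (min ds ρ)) (ball_mem_nhds x₀ (lt_min hdspos hρ))
  rw [mem_ball] at hz1
  have hzx : dist z₀ x₀ < ds := lt_of_lt_of_le hz1 (min_le_left _ _)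
  have hzρ : z₀ ∈ ball x₀ ρ := by
    rw [mem_ball]
    exact lt_of_lt_of_le hz1 (min_le_right _ _)
  have hne : z₀ ≠ x₀ := by
    rintro rfl
    exact hz2 (by rw [mem_closedBall, L.dist_eq])
  set d := dist z₀ x₀ with hd
  have hdpos : 0 < d := dist_pos.2 hne
  have hAd : ∀ n : ℕ, n ≤ N + 1 → A ^ n * d ≤ δ / 8 := by
    intro n hn
    have h1 : A ^ n ≤ A ^ (N + 1) := pow_le_pow_right₀ hA1 hn
    have h2 : A ^ (N + 1) * ds = δ / 8 := by rw [hds]; field_simp
    have h3 : 0 < A ^ (N + 1) := by positivity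
    calc A ^ n * d ≤ A ^ (N + 1) * ds := by
          apply mul_le_mul h1 hzx.le hdpos.le h3.le
      _ = δ / 8 := h2
  have hd8 : d ≤ δ / 8 := by simpa using hAd 0 (Nat.zero_le _)
  have hz₀ball : z₀ ∈ ball x₀ δ := by rw [mem_ball]; linarith
  set J : Set ι := {k | z₀ ∈ closedBall (c k) (r k)} with hJ
  have hJfin : J.Finite := h.pf z₀
  set G : Set X := ⋃ j ∈ J, closedBall (c j) (r j) with hG
  have hGcl : IsClosed G := hJfin.isClosed_biUnion fun j _ => isClosed_closedBall
  set I : Set ι := (⋃ j ∈ J, {k | (closedBall (c j) (r j) ∩ closedBall (c k) (r k)).Nonempty}) \ J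
    with hI
  have hIfin : I.Finite := (hJfin.biUnion fun j _ => h.star j).subset sdiff_subset
  have hdisjJ : ∀ k ∈ J, Disjoint (closedBall (c i₀) (r i₀)) (closedBall (c k) (r k)) :=
    fun k hk => (L.P2 k z₀ hz₀ball hz2 hk).2
  have hrJ : ∀ k ∈ J, δ / 4 ≤ r k := fun k hk =>
    L.radius hX h (hdisjJ k hk) hk (by linarith)
  have hdd : ∀ k ∈ J, r i₀ + r k < dist (c i₀) (c k) := by
    intro k hk
    have := hdisjJ k hk
    rwa [disjoint_closedBall_closedBall_iff hR.le (h.pos k).le] at this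
  have key : ∀ n : ℕ, n ≤ N + 1 → ∃ z, dist z x₀ ≤ A ^ n * d ∧ z ∈ G ∧
      (∀ i ∈ I, r i < dist z (c i)) ∧ (∀ k ∈ J, r k - dist z (c k) ≤ A ^ n * d) ∧
      {k ∈ J | z ∈ closedBall (c k) (r k)}.ncard + n ≤ N := by
    intro n
    induction n with
    | zero =>
      intro _
      refine ⟨z₀, by simp [hd], ?_, ?_, ?_, ?_⟩
      · obtain ⟨k, hk⟩ := h.cov z₀
        exact mem_biUnion (show k ∈ J from hk) hk
      · intro i hi
        have : ¬ dist z₀ (c i) ≤ r i := hi.2
        exact not_le.1 this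
      · intro k hk
        have hx := (L.P2 k z₀ hz₀ball hz2 hk).1
        have h3 : r k < dist x₀ (c k) := by
          by_contra hle
          exact hx (not_lt.1 hle)
        have h4 := dist_triangle x₀ z₀ (c k)
        rw [dist_comm x₀ z₀] at h4
        simp only [pow_zero, one_mul]
        linarith
      · have h1 : {k ∈ J | z₀ ∈ closedBall (c k) (r k)} = J := by
          ext k; simp [hJ]
        rw [h1]
        exact hN z₀ hzρ
    | succ n ih =>
      intro hn
      obtain ⟨z, hzd, hzG, hzI, hzJ, hzN⟩ := ih (by omega)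
      set D := A ^ n * d with hD
      have hDpos : 0 < D := by positivity
      have hAD : A ^ (n + 1) * d = A * D := by rw [hD]; ring
      have hADδ : A * D ≤ δ / 8 := by rw [← hAD]; exact hAd (n + 1) hn
      have hDδ : D ≤ δ / 8 := hAd n (by omega)
      obtain ⟨k, hk, hzk⟩ := mem_iUnion₂.1 hzG
      set l := (8 * M₀ / η + 3) * D with hl
      have hlpos : 0 < l := by positivity
      have hDl : D + l = A * D := by rw [hl, hA]; ring
      -- gaps
      have hTfin : (I ∪ J).Finite := hIfin.union hJfin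
      have hgap : ∀ᶠ e in 𝓝[>] (0:ℝ), ∀ i ∈ I ∪ J, r i < dist z (c i) →
          l * e < dist z (c i) - r i := by
        rw [eventually_all_finite hTfin]
        intro i hi
        by_cases hri : r i < dist z (c i)
        · have hpos : 0 < (dist z (c i) - r i) / l := div_pos (by linarith) hlpos
          filter_upwards [Ioo_mem_nhdsGT hpos] with e he _
          have := he.2
          rw [lt_div_iff₀ hlpos] at this
          linarith
        · exact Filter.Eventually.of_forall fun e h' => absurd h' hri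
      obtain ⟨e, he1, he2⟩ := (hgap.and (Ioo_mem_nhdsGT
        (show (0:ℝ) < min (1 / 2) D by positivity))).exists
      have he3 : e ≤ 1 / 2 := he2.2.le.trans (min_le_left _ _)
      have he4 : e ≤ D := he2.2.le.trans (min_le_right _ _)
      have hdual : ∀ i : ι, ∃ g : X →L[ℝ] ℝ, ‖g‖ ≤ 1 ∧ g (z - c i) = ‖z - c i‖ := by
        intro i
        obtain ⟨g, hg1, hg2⟩ := exists_dual_vector'' ℝ (z - c i)
        exact ⟨g, hg1, by simpa using hg2⟩
      choose g hg1 hg2 using hdual
      have hm1 : ‖z - c k‖ ≤ r k := by rw [← dist_eq_norm]; exact hzk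
      have hdep : r k - ‖z - c k‖ ≤ D := by rw [← dist_eq_norm]; exact hzJ k hk
      have hm2 : η / 2 ≤ ‖z - c k‖ := by
        have := hrJ k hk
        linarith
      have hmpos : 0 < ‖z - c k‖ := by linarith
      set p := (x₀ - c i₀) - (η / 2 * ‖z - c k‖⁻¹) • (z - c k) with hp
      have hpdist : dist p (x₀ - c i₀) = η / 2 := by
        rw [dist_eq_norm, hp]
        have : x₀ - c i₀ - (η / 2 * ‖z - c k‖⁻¹) • (z - c k) - (x₀ - c i₀)
          = -((η / 2 * ‖z - c k‖⁻¹) • (z - c k)) := by abel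
        rw [this, norm_neg, norm_smul, Real.norm_of_nonneg (by positivity)]
        field_simp
      obtain ⟨u, hu1, hu2, hu3⟩ := lemmaK (w := p) (η := η / 2) (by positivity)
        (fun v hv => hLO v (by
          rw [mem_ball] at hv ⊢
          have := dist_triangle v p (x₀ - c i₀)
          linarith)) hTfin g he2.1
      have hgrow : r k < ‖z - l • u - c k‖ :=
        growth (by rw [← dist_eq_norm]; exact L.dist_eq) hηpos he2.1 hDpos hlpos (hM₀ z₀ hzρ k hk)
          (hdd k hk) hzd hm1 hm2 hdep he3 he4 hu3 le_rfl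
      -- avoid
      have havoid : ∀ i ∈ I ∪ J, r i < dist z (c i) → ∀ t : ℝ, 0 ≤ t → t ≤ l →
          r i < dist (z - t • u) (c i) := by
        intro i hi hri t ht0 htl
        have h1 := he1 i hi hri
        have h2 : g i (z - t • u - c i) = ‖z - c i‖ - t * g i u := by
          have : z - t • u - c i = (z - c i) - t • u := by abel
          rw [this, map_sub, hg2, map_smul, smul_eq_mul]
        have h3 : g i (z - t • u - c i) ≤ ‖z - t • u - c i‖ := by
          calc g i (z - t • u - c i) ≤ ‖g i (z - t • u - c i)‖ := Real.le_norm_self _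
            _ ≤ ‖g i‖ * ‖z - t • u - c i‖ := (g i).le_opNorm _
            _ ≤ 1 * ‖z - t • u - c i‖ := mul_le_mul_of_nonneg_right (hg1 i) (norm_nonneg _)
            _ = _ := one_mul _
        have h4 : t * g i u ≤ l * e := by
          have h5 : g i u ≤ e := (le_abs_self _).trans (hu2 i hi)
          calc t * g i u ≤ t * e := mul_le_mul_of_nonneg_left h5 ht0
            _ ≤ l * e := mul_le_mul_of_nonneg_right htl he2.1.le
        rw [dist_eq_norm] at h1 ⊢
        linarith
      have hmove : ∀ t : ℝ, 0 ≤ t → t ≤ l → dist (z - t • u) z ≤ l := by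
        intro t ht0 htl
        have h1 : z - t • u - z = -(t • u) := by abel
        rw [dist_eq_norm, h1, norm_neg, norm_smul, Real.norm_of_nonneg ht0]
        nlinarith
      have hz'G : z - l • u ∈ G := by
        apply seg_stay hGcl hzG
        intro y hy hyG hycl
        obtain ⟨s, hs, rfl⟩ := (segment_eq_image' ℝ z (z - l • u)) ▸ hy
        have hy' : z + s • (z - l • u - z) = z - (s * l) • u := by module
        simp only [hy'] at hyG hycl
        set t := s * l with ht
        have ht0 : 0 ≤ t := mul_nonneg hs.1 hlpos.le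
        have htl : t ≤ l := by
          have := hs.2
          rw [ht]
          nlinarith
        obtain ⟨k', hk', hyk'⟩ := mem_iUnion₂.1 hyG
        have hyball : z - t • u ∈ ball x₀ δ := by
          rw [mem_ball]
          have h1 := hmove t ht0 htl
          have h2 := dist_triangle (z - t • u) z x₀
          linarith
        have hNL : ¬ NL c r (z - t • u) := fun hNL =>
          Set.disjoint_left.1 (hdisjJ k' hk') (L.P3 _ hyball hNL) hyk'
        obtain ⟨i, hiJ, hi⟩ := mem_other h hNL J hycl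
        have hiI : i ∈ I := ⟨mem_biUnion hk' ⟨_, hyk', hi⟩, hiJ⟩
        have h1 := havoid i (Or.inl hiI) (hzI i hiI) t ht0 htl
        have h2 : dist (z - t • u) (c i) ≤ r i := hi
        linarith
      refine ⟨z - l • u, ?_, hz'G, ?_, ?_, ?_⟩
      · rw [hAD]
        have h1 := hmove l hlpos.le le_rfl
        have h2 := dist_triangle (z - l • u) z x₀
        linarith
      · intro i hi
        exact havoid i (Or.inl hi) (hzI i hi) l hlpos.le le_rfl
      · intro k' hk'
        rw [hAD]
        have h1 := hmove l hlpos.le le_rfl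
        have h2 := dist_triangle_left z (c k') (z - l • u)
        have h3 := hzJ k' hk'
        linarith
      · have hss : {k' ∈ J | z - l • u ∈ closedBall (c k') (r k')} ⊂
            {k' ∈ J | z ∈ closedBall (c k') (r k')} := by
          refine ⟨?_, ?_⟩
          · rintro k' ⟨hk'J, hk'⟩
            refine ⟨hk'J, ?_⟩
            by_contra hno
            rw [mem_closedBall, not_le] at hno
            have h1 := havoid k' (Or.inr hk'J) hno l hlpos.le le_rfl
            have h2 : dist (z - l • u) (c k') ≤ r k' := hk'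
            linarith
          · intro hsub
            have h1 := (hsub ⟨hk, hzk⟩ : k ∈ {k' ∈ J | z - l • u ∈ closedBall (c k') (r k')}).2
            rw [mem_closedBall, dist_eq_norm] at h1
            linarith
        have hfin : {k' ∈ J | z ∈ closedBall (c k') (r k')}.Finite := hJfin.subset fun _ hx => hx.1
        have := Set.ncard_lt_ncard hss hfin
        omega
  obtain ⟨z, -, -, -, -, hz⟩ := key (N + 1) le_rfl
  omega

end Pool.Agent.H130R9
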